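import Pool.Agent.Y269.GP.Alg

/-!
The algebra is simple.
-/

namespace Pool.Agent.Y269.GP

open scoped ENNReal
open Pool.Agent.Helper133.BT Pool.Agent.Helper133.BU Filter Topology

noncomputable section

/-- a projection at distance less than one from an ideal is in the ideal -/
lemma proj_mem {R : Type*} [CStarAlgebra R] (I : TwoSidedIdeal R) {e z : R} (he : e * e = e)
    (hn : ‖e‖ ≤ 1) (hz : z ∈ I) (h : ‖e - z‖ < 1) : e ∈ I := by
  set w := e - e * z * e with hw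
  have h1 : w = e * (e - z) * e := by
    rw [hw, mul_sub, sub_mul, he, he]
  have h2 : ‖w‖ < 1 := by
    rw [h1]
    calc ‖e * (e - z) * e‖ ≤ ‖e * (e - z)‖ * ‖e‖ := norm_mul_le _ _
      _ ≤ (‖e‖ * ‖e - z‖) * ‖e‖ := by gcongr; exact norm_mul_le _ _
      _ ≤ (1 * ‖e - z‖) * 1 := by gcongr
      _ = ‖e - z‖ := by ring
      _ < 1 := h
  let u := Units.oneSub w h2
  have hu : (u : R) = 1 - w := rfl
  have h3 : e * (u : R) = e * z * e := by
    rw [hu, mul_sub, mul_one, hw, mul_sub, he, ← mul_assoc, ← mul_assoc, he, sub_sub_cancel]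
  have h4 : e = e * z * e * ((u⁻¹ : Rˣ) : R) := by
    rw [← h3, mul_assoc, Units.mul_inv, mul_one]
  rw [h4]
  exact I.mul_mem_right _ _ (I.mul_mem_right _ _ (I.mul_mem_left _ _ hz))

section Ambient

variable {E : Type} [CStarAlgebra E] (M : Amb E)

lemma ofC_mul (S T : EE) : M.ofC (S * T) = M.ofC S * M.ofC T := by
  apply toC_inj M
  rw [toC_mul, toC_ofC, toC_ofC, toC_ofC]

lemma ofC_sum {ι : Type*} (s : Finset ι) (f : ι → EE) :
    M.ofC (∑ i ∈ s, f i) = ∑ i ∈ s, M.ofC (f i) := by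
  apply toC_inj M
  rw [toC_sum, toC_ofC]
  exact Finset.sum_congr rfl fun i _ => (toC_ofC M (f i)).symm

/-- matrix units inside a block are in the algebra -/
lemma unit_mem {m i j : ℕ} (hi : i < 2 ^ m) (hj : j < 2 ^ m) :
    M.ofC (TC (m + 1) 1 (2 ^ m + i) (2 ^ m + j)) ∈ A0 M := by
  have h0 : 0 < 2 ^ m := by positivity
  have e1 : 2 ^ m + i < 2 ^ (m + 1) := by rw [pow_succ]; omega
  have e2 : 2 ^ m + j < 2 ^ (m + 1) := by rw [pow_succ]; omega
  have l1 : Nat.log 2 (2 ^ m + i) = m :=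
    ((blk_log (by omega)).mp (⟨by omega, e1⟩ : blk m (2 ^ m + i))).symm
  have l2 : Nat.log 2 (2 ^ m + j) = m :=
    ((blk_log (by omega)).mp (⟨by omega, e2⟩ : blk m (2 ^ m + j))).symm
  have h1 : ∀ c, psi (2 ^ m + j) c = psi (2 ^ m + i) c := by
    intro c
    unfold psi
    rw [if_neg (by omega), if_neg (by omega), l1, l2]
  have h2 : TC (m + 1) 1 (2 ^ m + i) (2 ^ m + j) =
      ∑ c ∈ Finset.range (kk (2 ^ m + i)),
        TC (m + 1) (psi (2 ^ m + i) c * psi (2 ^ m + j) c) (2 ^ m + i) (2 ^ m + j) := by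
    rw [TC_sum]
    congr 1
    simp only [h1]
    exact (psi_sum _).symm
  rw [h2, ofC_sum]
  exact sum_mem fun c _ => mem_A0 M (gen_mem M e1 e2 c c)

/-- if a matrix unit of a block is in an ideal then so is one -/
lemma one_mem {m : ℕ} (I : TwoSidedIdeal ↥(A0 M))
    (h : (⟨M.ofC (TC (m + 1) 1 (2 ^ m) (2 ^ m)), by
      have h0 : 0 < 2 ^ m := by positivity
      exact unit_mem M (i := 0) (j := 0) h0 h0⟩ : ↥(A0 M)) ∈ I) : (1 : ↥(A0 M)) ∈ I := by
  have h0 : 0 < 2 ^ m := by positivity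
  have hb : 2 ^ m < 2 ^ (m + 1) := by rw [pow_succ]; omega
  set e : ↥(A0 M) := ⟨M.ofC (TC (m + 1) 1 (2 ^ m) (2 ^ m)), unit_mem M (i := 0) (j := 0) h0 h0⟩
    with he
  -- the pieces
  let L := m + 1
  let b := 2 ^ m
  have hterm : ∀ a ∈ Finset.range (2 ^ (m + 1)), ∀ c c' : ℕ,
      M.ofC (TC (m + 1) ((psi a c * psi a c) * (psi (2 ^ m) c' * psi (2 ^ m) c')) a a) ∈ A0 M ∧
      ∀ hm : M.ofC (TC (m + 1) ((psi a c * psi a c) * (psi (2 ^ m) c' * psi (2 ^ m) c')) a a) ∈ A0 M,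
        (⟨_, hm⟩ : ↥(A0 M)) ∈ I := by
    intro a ha c c'
    have ha' := Finset.mem_range.mp ha
    have m1 := mem_A0 M (gen_mem M ha' hb c c')
    have m2 := mem_A0 M (gen_mem M hb ha' c' c)
    have e1 : M.ofC (TC (m + 1) ((psi a c * psi a c) * (psi (2 ^ m) c' * psi (2 ^ m) c')) a a) =
        M.ofC (TC (m + 1) (psi a c * psi (2 ^ m) c') a (2 ^ m)) *
          M.ofC (TC (m + 1) 1 (2 ^ m) (2 ^ m)) *
          M.ofC (TC (m + 1) (psi (2 ^ m) c' * psi a c) (2 ^ m) a) := by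
      rw [← ofC_mul, ← ofC_mul, TC_mul _ _ _ _ _ hb, TC_mul _ _ _ _ _ hb]
      congr 2
      ring
    have hmem : M.ofC (TC (m + 1) ((psi a c * psi a c) * (psi (2 ^ m) c' * psi (2 ^ m) c')) a a) ∈
        A0 M := by
      rw [e1]
      exact mul_mem (mul_mem m1 e.2) m2
    refine ⟨hmem, fun hm => ?_⟩
    have h3 : (⟨_, hm⟩ : ↥(A0 M)) = ⟨_, m1⟩ * e * ⟨_, m2⟩ := Subtype.ext e1
    rw [h3]
    exact I.mul_mem_right _ _ (I.mul_mem_left _ _ h)
  -- one is the sum of the pieces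
  let g : ℕ → ℕ → ℕ → ↥(A0 M) := fun a c c' =>
    if ha : a ∈ Finset.range (2 ^ (m + 1)) then ⟨_, (hterm a ha c c').1⟩ else 0
  have hg : ∀ a c c', g a c c' ∈ I := by
    intro a c c'
    by_cases ha : a ∈ Finset.range (2 ^ (m + 1))
    · simp only [g, dif_pos ha]
      exact (hterm a ha c c').2 _
    · simp only [g, dif_neg ha]
      exact I.zero_mem
  have hone : (1 : ↥(A0 M)) = ∑ a ∈ Finset.range (2 ^ (m + 1)), ∑ c ∈ Finset.range (kk a),
      ∑ c' ∈ Finset.range (kk (2 ^ m)), g a c c' := by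
    apply Subtype.ext
    rw [AddSubmonoidClass.coe_finsetSum]
    apply toC_inj M
    rw [toC_sum]
    have h1 : M.toC ((1 : ↥(A0 M)) : E) = 1 := toC_one M
    rw [h1, ← sum_TC_one (m + 1)]
    refine Finset.sum_congr rfl fun a ha => ?_
    rw [AddSubmonoidClass.coe_finsetSum, toC_sum]
    have h2 : ∀ c ∈ Finset.range (kk a), M.toC ((∑ c' ∈ Finset.range (kk (2 ^ m)), g a c c' :
        ↥(A0 M)) : E) = TC (m + 1) (psi a c * psi a c) a a := by
      intro c _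
      rw [AddSubmonoidClass.coe_finsetSum, toC_sum]
      have h3 : ∀ c' ∈ Finset.range (kk (2 ^ m)), M.toC ((g a c c' : ↥(A0 M)) : E) =
          TC (m + 1) ((psi a c * psi a c) * (psi (2 ^ m) c' * psi (2 ^ m) c')) a a := by
        intro c' _
        simp only [g, dif_pos ha]
        exact toC_ofC M _
      rw [Finset.sum_congr rfl h3, TC_sum, ← Finset.mul_sum, psi_sum, mul_one]
    rw [Finset.sum_congr rfl h2, TC_sum, psi_sum]
  rw [hone]
  exact sum_mem fun a _ => sum_mem fun c _ => sum_mem fun c' _ => hg a c c'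

/-- compression of an element of the algebra to a matrix unit -/
lemma corner {l m i j : ℕ} {T : EE} (hT : Lev l T) (hlm : l ≤ m) (hi : i < 2 ^ m)
    (hj : j < 2 ^ m) :
    TC (m + 1) 1 (2 ^ m) (2 ^ m + i) * T * TC (m + 1) 1 (2 ^ m + j) (2 ^ m) =
      ent T i j (q m) • TC (m + 1) 1 (2 ^ m) (2 ^ m) := by
  have hb : 2 ^ m < 2 ^ (m + 1) := by rw [pow_succ]; have : 0 < 2 ^ m := by positivity
                                      omega
  have ebi : 2 ^ m + i < 2 ^ (m + 1) := by rw [pow_succ]; omega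
  have ebj : 2 ^ m + j < 2 ^ (m + 1) := by rw [pow_succ]; omega
  have hsk : ∀ k s t, s < 2 ^ m → t < 2 ^ m → sk k (2 ^ m + s) = sk k (2 ^ m + t) := by
    intro k s t hs ht
    unfold sk
    have h1 : blk m (2 ^ m + s) := ⟨by omega, by rw [pow_succ]; omega⟩
    have h2 : blk m (2 ^ m + t) := ⟨by omega, by rw [pow_succ]; omega⟩
    have h3 : blk k (2 ^ m + s) ↔ blk k (2 ^ m + t) := by
      constructor
      · intro h; rw [blk_unique h h1]; exact h2
      · intro h; rw [blk_unique h h2]; exact h1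
    simp only [h3]
  have h00 : 0 < 2 ^ m := by positivity
  have par : ∀ s t, s < 2 ^ m → t < 2 ^ m → ∀ k p, (1 : C(PT, ℂ)) (flip k p) =
      sk k (2 ^ m + s) * sk k (2 ^ m + t) * (1 : C(PT, ℂ)) p := by
    intro s t hs ht k p
    rw [hsk k s t hs ht, sk_mul_self, one_mul]
    rfl
  have L1 : Lev (m + 1) (TC (m + 1) 1 (2 ^ m) (2 ^ m + i)) := TC_lev ebi (par 0 i h00 hi)
  have L2 : Lev (m + 1) (TC (m + 1) 1 (2 ^ m + j) (2 ^ m)) := TC_lev hb (par j 0 hj h00)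
  have L3 : Lev (m + 1) (TC (m + 1) 1 (2 ^ m) (2 ^ m)) := TC_lev hb (par 0 0 h00 h00)
  have hT' := hT.mono (show l ≤ m + 1 by omega)
  have hLev : Lev (m + 1) (TC (m + 1) 1 (2 ^ m) (2 ^ m + i) * T * TC (m + 1) 1 (2 ^ m + j) (2 ^ m)
      + (-ent T i j (q m)) • TC (m + 1) 1 (2 ^ m) (2 ^ m)) :=
    ((L1.mul hT').mul L2).add (L3.smul _)
  have hz := hLev.eq_zero (by
    intro p s t hs ht
    have e1 : (TC (m + 1) 1 (2 ^ m) (2 ^ m + i) * T * TC (m + 1) 1 (2 ^ m + j) (2 ^ m)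
      + (-ent T i j (q m)) • TC (m + 1) 1 (2 ^ m) (2 ^ m)) p (ee t) s =
      TC (m + 1) 1 (2 ^ m) (2 ^ m + i) p (T p (TC (m + 1) 1 (2 ^ m + j) (2 ^ m) p (ee t))) s +
        (-ent T i j (q m)) * TC (m + 1) 1 (2 ^ m) (2 ^ m) p (ee t) s := rfl
    rw [e1, TC_ee_vec ebj p ht hb, TC_ee _ _ hs]
    have one_p : (1 : C(PT, ℂ)) p = 1 := rfl
    by_cases ht' : t = 2 ^ m
    · rw [if_pos ht', TC_apply]
      have hw : wt (m + 1) (⇑(1 : C(PT, ℂ))) (2 ^ m) p s = if s = 2 ^ m then 1 else 0 := by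
        unfold wt
        rw [Nat.mod_eq_of_lt hs, Nat.div_eq_of_lt hs, W_zero, one_p]
      have hsg : sgm (m + 1) (2 ^ m + i) s = 2 ^ m + i := by
        unfold sgm
        rw [Nat.div_eq_of_lt hs, mul_zero, zero_add]
      rw [hw, hsg, hT.entry_block hlm p hi hj]
      by_cases hs' : s = 2 ^ m
      · rw [if_pos hs', if_pos ⟨hs', ht'⟩, one_p]
        unfold ent
        ring
      · rw [if_neg hs', if_neg (fun h : s = 2 ^ m ∧ t = 2 ^ m => hs' h.1)]
        ring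
    · rw [if_neg ht', if_neg (fun h : s = 2 ^ m ∧ t = 2 ^ m => ht' h.2), map_zero, map_zero,
        mul_zero, add_zero]
      rfl)
  ext1 p
  have h9 : (TC (m + 1) 1 (2 ^ m) (2 ^ m + i) * T * TC (m + 1) 1 (2 ^ m + j) (2 ^ m)) p +
      (-ent T i j (q m)) • (TC (m + 1) 1 (2 ^ m) (2 ^ m) p) = 0 :=
    congrArg (fun T : EE => T p) hz
  show _ = ent T i j (q m) • (TC (m + 1) 1 (2 ^ m) (2 ^ m) p)
  rw [neg_smul, ← sub_eq_add_neg] at h9
  exact sub_eq_zero.mp h9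

lemma norm_ee (i : ℕ) : ‖ee i‖ = 1 := by
  unfold ee
  rw [lp.norm_single (by norm_num), norm_one]

lemma norm_ent_le (T : EE) (i j : ℕ) (p : PT) {C : ℝ} (h : ‖T‖ ≤ C) : ‖ent T i j p‖ ≤ C := by
  unfold ent
  calc ‖T p (ee j) i‖ ≤ ‖T p (ee j)‖ := lp.norm_apply_le_norm (by norm_num) _ _
    _ ≤ ‖T p‖ * ‖ee j‖ := (T p).le_opNorm _
    _ = ‖T p‖ := by rw [norm_ee, mul_one]
    _ ≤ ‖T‖ := T.norm_coe_le_norm p
    _ ≤ C := h

/-- a nonzero ideal is everything -/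
theorem ideal_eq_top (I : TwoSidedIdeal ↥(A0 M)) {x : ↥(A0 M)} (hx : x ∈ I) (hx0 : x ≠ 0) :
    (1 : ↥(A0 M)) ∈ I := by
  -- a nonzero entry
  have h1 : ∃ p i j, ent (M.toC (x : E)) i j p ≠ 0 := by
    by_contra hcon
    push Not at hcon
    apply hx0
    apply Subtype.ext
    apply toC_inj M
    ext1 p
    refine op_ext' fun j i => ?_
    have h2 : M.toC ((0 : ↥(A0 M)) : E) = 0 := toC_zero M
    rw [h2]
    exact hcon p i j
  obtain ⟨p, i, j, hp⟩ := h1
  set δ := ‖ent (M.toC (x : E)) i j p‖ / 3 with hδd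
  have hδ : 0 < δ := by
    have : 0 < ‖ent (M.toC (x : E)) i j p‖ := norm_pos_iff.mpr hp
    positivity
  obtain ⟨l, y, hy, hl, hxy⟩ := A0_approx M x.2 hδ
  have hxy' : ‖M.toC (x : E) - M.toC y‖ ≤ δ := (norm_toC_sub_le M _ _).trans hxy
  have h2 : δ < ‖ent (M.toC y) i j p‖ := by
    have h3 : ent (M.toC (x : E)) i j p = ent (M.toC (x : E) - M.toC y) i j p +
        ent (M.toC y) i j p := by
      show _ = (M.toC (x : E) p (ee j) i - M.toC y p (ee j) i) + M.toC y p (ee j) i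
      rw [sub_add_cancel]
      rfl
    have h4 := norm_ent_le _ i j p hxy'
    have h5 : ‖ent (M.toC (x : E)) i j p‖ ≤ δ + ‖ent (M.toC y) i j p‖ := by
      rw [h3]
      exact (norm_add_le _ _).trans (add_le_add h4 le_rfl)
    have h6 : ‖ent (M.toC (x : E)) i j p‖ = 3 * δ := by rw [hδd]; ring
    linarith
  -- choose a base point
  have hU : IsOpen {p' : PT | δ < ‖ent (M.toC y) i j p'‖} :=
    isOpen_lt continuous_const (ent_continuous _ i j).norm
  obtain ⟨m, hm, hqm⟩ := q_spec hU ⟨p, h2⟩ (max l (i + j))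
  have hlm : l ≤ m := (le_max_left _ _).trans hm
  have hijm : i + j ≤ m := (le_max_right _ _).trans hm
  have hi : i < 2 ^ m := by
    calc i ≤ m := by omega
      _ < _ := Nat.lt_two_pow_self
  have hj : j < 2 ^ m := by
    calc j ≤ m := by omega
      _ < _ := Nat.lt_two_pow_self
  set h0 := ent (M.toC y) i j (q m) with hh0
  have hh : δ < ‖h0‖ := hqm
  have hh0' : h0 ≠ 0 := by
    intro h
    rw [h, norm_zero] at hh
    linarith
  have h00 : 0 < 2 ^ m := by positivity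
  -- elements of the algebra
  set c : ↥(A0 M) := ⟨M.ofC (TC (m + 1) 1 (2 ^ m) (2 ^ m + i)), unit_mem M (i := 0) h00 hi⟩ with hc
  set d : ↥(A0 M) := ⟨M.ofC (TC (m + 1) 1 (2 ^ m + j) (2 ^ m)), unit_mem M (j := 0) hj h00⟩ with hd
  set e : ↥(A0 M) := ⟨M.ofC (TC (m + 1) 1 (2 ^ m) (2 ^ m)), unit_mem M (i := 0) (j := 0) h00 h00⟩
    with he
  set y' : ↥(A0 M) := ⟨y, mem_A0 M hy⟩ with hy'
  have k1 : c * y' * d = h0 • e := by
    apply Subtype.ext
    apply toC_inj M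
    show M.toC ((c : E) * y * (d : E)) = M.toC (h0 • (e : E))
    rw [toC_mul, toC_mul, toC_smul]
    show M.toC (M.ofC _) * M.toC y * M.toC (M.ofC _) = h0 • M.toC (M.ofC _)
    rw [toC_ofC, toC_ofC, toC_ofC]
    exact corner hl hlm hi hj
  have nc : ‖c‖ ≤ 1 := norm_ofC_le M _ zero_le_one norm_TC_one_le
  have nd : ‖d‖ ≤ 1 := norm_ofC_le M _ zero_le_one norm_TC_one_le
  have ne : ‖e‖ ≤ 1 := norm_ofC_le M _ zero_le_one norm_TC_one_le
  have k2 : ‖c * x * d - h0 • e‖ ≤ δ := by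
    rw [← k1, ← sub_mul, ← mul_sub]
    have hxy'' : ‖x - y'‖ ≤ δ := hxy
    calc ‖c * (x - y') * d‖ ≤ ‖c * (x - y')‖ * ‖d‖ := norm_mul_le _ _
      _ ≤ (‖c‖ * ‖x - y'‖) * ‖d‖ := by gcongr; exact norm_mul_le _ _
      _ ≤ (1 * δ) * 1 := by gcongr
      _ = δ := by ring
  set z : ↥(A0 M) := (h0⁻¹ • (1 : ↥(A0 M))) * (c * x * d) with hz
  have hzI : z ∈ I := I.mul_mem_left _ _ (I.mul_mem_right _ _ (I.mul_mem_left _ _ hx))
  have k3 : ‖e - z‖ < 1 := by
    have e1 : e - z = -(h0⁻¹ • (c * x * d - h0 • e)) := by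
      rw [hz, smul_mul_assoc, one_mul, smul_sub, smul_smul, inv_mul_cancel₀ hh0', one_smul, neg_sub]
    rw [e1, norm_neg, norm_smul, norm_inv]
    have hpos : 0 < ‖h0‖ := norm_pos_iff.mpr hh0'
    calc ‖h0‖⁻¹ * ‖c * x * d - h0 • e‖ ≤ ‖h0‖⁻¹ * δ := by gcongr
      _ < ‖h0‖⁻¹ * ‖h0‖ := by gcongr
      _ = 1 := inv_mul_cancel₀ hpos.ne'
  have hee : e * e = e := by
    apply Subtype.ext
    show M.ofC _ * M.ofC _ = M.ofC _
    have hb : 2 ^ m < 2 ^ (m + 1) := by rw [pow_succ]; omega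
    rw [← ofC_mul, TC_mul _ _ _ _ _ hb, mul_one]
  exact one_mem M I (proj_mem I hee ne hzI k3)

theorem simple : IsSimpleRing ↥(A0 M) := by
  have hnt : Nontrivial ↥(A0 M) := by
    refine ⟨0, 1, fun h => ?_⟩
    have h1 : M.toC ((0 : ↥(A0 M)) : E) = M.toC ((1 : ↥(A0 M)) : E) := by rw [h]
    have h2 : M.toC ((0 : ↥(A0 M)) : E) = 0 := toC_zero M
    have h3 : M.toC ((1 : ↥(A0 M)) : E) = 1 := toC_one M
    rw [h2, h3] at h1
    obtain ⟨p⟩ : Nonempty PT := inferInstance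
    have h4 := congrArg (fun T : EE => T p (ee 0) 0) h1
    have h5 : (0 : EE) p (ee 0) 0 = 0 := rfl
    have h6 : (1 : EE) p (ee 0) 0 = ee 0 0 := rfl
    simp only [h5, h6, ee_apply, if_true] at h4
    exact zero_ne_one h4
  apply IsSimpleRing.of_eq_bot_or_eq_top
  intro I
  by_cases hI : ∀ x ∈ I, x = 0
  · left
    exact le_bot_iff.mp fun x hx => by
      rw [hI x hx]
      exact TwoSidedIdeal.zero_mem _
  · right
    push Not at hI
    obtain ⟨x, hx, hx0⟩ := hI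
    have h1 := ideal_eq_top M I hx hx0
    refine top_le_iff.mp fun y _ => ?_
    have := I.mul_mem_left y 1 h1
    rwa [mul_one] at this

end Ambient

/-- the continuous operator valued functions -/
def amb : Amb C(PT, HH →L[ℂ] HH) where
  ev p :=
    { toFun := fun x => x p
      map_one' := rfl
      map_mul' := fun _ _ => rfl
      map_zero' := rfl
      map_add' := fun _ _ => rfl
      commutes' := fun _ => rfl
      map_star' := fun _ => rfl }
  cont x := x.continuous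
  inj x y h := ContinuousMap.ext h
  norm_le x C hC h := (ContinuousMap.norm_le _ hC).mpr h
  of x h := ⟨x, h⟩
  ev_of _ _ _ := rfl

theorem main : ∃ (A : Type) (_ : CStarAlgebra A),
    TopologicalSpace.SeparableSpace A ∧ IsSimpleRing A ∧
    ∀ F : Set A, F.Finite → (StarAlgebra.adjoin ℂ F).topologicalClosure ≠ ⊤ :=
  ⟨↥(A0 amb), inferInstance, separable amb, simple amb, not_finitely_generated amb⟩

end

end Pool.Agent.Y269.GP
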