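import Pool.Agent.Y269.GP.Lv

/-!
Finitely many self-similar functions have a common invariant subspace at some point.
-/

namespace Pool.Agent.Y269.GP

open scoped ENNReal
open Pool.Agent.Helper133.BT Pool.Agent.Helper133.BU Filter Topology

noncomputable section

/-- matrix entries -/
def ent (T : EE) (s t : ℕ) (p : PT) : ℂ := T p (ee t) s

lemma ent_continuous (T : EE) (s t : ℕ) : Continuous (ent T s t) := by
  have h1 : Continuous fun p => T p (ee t) := T.continuous.clm_apply continuous_const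
  have h2 : Continuous fun f : HH => f s := by
    have := (lp.lipschitzWith_one_eval (E := fun _ : ℕ => ℂ) 2 s).continuous
    exact this
  exact h2.comp h1

lemma gg_ee (k t : ℕ) : gg k (ee t) = sk k t • ee t := by
  refine lp.ext (funext fun i => ?_)
  rw [gg_apply, lp.coeFn_smul, Pi.smul_apply, ee_apply, smul_eq_mul]
  by_cases h : i = t
  · subst h; rfl
  · rw [if_neg h]; simp

lemma sk_mul_self (k i : ℕ) : sk k i * sk k i = 1 := by
  unfold sk; split_ifs <;> simp

lemma ent_flip {l : ℕ} {T : EE} (h : Lev l T) (k s t : ℕ) (p : PT) :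
    ent T s t (flip k p) = sk k s * sk k t * ent T s t p := by
  have h1 : (T (flip k p) * gg k) (ee t) s = (gg k * T p) (ee t) s := by rw [h.eqv]
  rw [mulA, mulA, gg_ee, map_smul, lp.coeFn_smul, Pi.smul_apply, smul_eq_mul, gg_apply] at h1
  unfold ent
  have h2 := sk_mul_self k t
  linear_combination (sk k t) * h1 - (T (flip k p) (ee t) s) * h2

/-- the sign as a parity -/
def pk (k i : ℕ) : ZMod 2 := if blk k i then 1 else 0

lemma sgn_add (a b : ZMod 2) : sgn (a + b) = sgn a * sgn b := by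
  have hz : ∀ a : ZMod 2, a = 0 ∨ a = 1 := by decide
  have h11 : (1 : ZMod 2) + 1 = 0 := by decide
  rcases hz a with rfl | rfl <;> rcases hz b with rfl | rfl <;> simp [sgn, h11]

lemma sgn_pk (k i : ℕ) : ((sgn (pk k i) : ℝ) : ℂ) = sk k i := by
  unfold pk sk sgn
  split_ifs <;> simp_all

/-- decoding of an index: the function, the row and the column -/
def dj (N r : ℕ) : ℕ := (r / 4) % N
def da (N r : ℕ) : ℕ := (r / 4 / N) % 2 ^ N
def db (N i r : ℕ) : ℕ := 2 ^ i + (r / 4 / N / 2 ^ N) % 2 ^ i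

lemma da_lt (N r : ℕ) : da N r < 2 ^ N := Nat.mod_lt _ (by positivity)

lemma db_blk (N i r : ℕ) : blk i (db N i r) := by
  have : (r / 4 / N / 2 ^ N) % 2 ^ i < 2 ^ i := Nat.mod_lt _ (by positivity)
  unfold blk db
  rw [pow_succ]; omega

lemma decode {N i j a b κ : ℕ} (hj : j < N) (ha : a < 2 ^ N) (hb : b < 2 ^ i) (hκ : κ < 4) :
    ∃ r, r < 4 * N * 2 ^ N * 2 ^ i ∧ r % 4 = κ ∧ dj N r = j ∧ da N r = a ∧ db N i r = 2 ^ i + b := by
  have hN : 0 < N := by omega
  have h2 : 0 < 2 ^ N := by positivity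
  refine ⟨4 * (N * (2 ^ N * b + a) + j) + κ, ?_, by omega, ?_, ?_, ?_⟩
  · have h3 : 2 ^ N * b + a + 1 ≤ 2 ^ N * 2 ^ i := by
      calc 2 ^ N * b + a + 1 ≤ 2 ^ N * b + 2 ^ N := by omega
        _ = 2 ^ N * (b + 1) := by ring
        _ ≤ _ := Nat.mul_le_mul_left _ hb
    have h4 : N * (2 ^ N * b + a) + j + 1 ≤ N * (2 ^ N * 2 ^ i) := by
      calc N * (2 ^ N * b + a) + j + 1 ≤ N * (2 ^ N * b + a) + N := by omega
        _ = N * (2 ^ N * b + a + 1) := by ring
        _ ≤ _ := Nat.mul_le_mul_left _ h3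
    calc 4 * (N * (2 ^ N * b + a) + j) + κ < 4 * (N * (2 ^ N * b + a) + j + 1) := by omega
      _ ≤ 4 * (N * (2 ^ N * 2 ^ i)) := Nat.mul_le_mul_left _ h4
      _ = _ := by ring
  · unfold dj
    have e : (4 * (N * (2 ^ N * b + a) + j) + κ) / 4 = N * (2 ^ N * b + a) + j := by omega
    rw [e, Nat.mul_add_mod, Nat.mod_eq_of_lt hj]
  · unfold da
    have e : (4 * (N * (2 ^ N * b + a) + j) + κ) / 4 = N * (2 ^ N * b + a) + j := by omega
    rw [e, Nat.mul_add_div hN, Nat.div_eq_of_lt hj, add_zero, Nat.mul_add_mod,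
      Nat.mod_eq_of_lt ha]
  · unfold db
    have e : (4 * (N * (2 ^ N * b + a) + j) + κ) / 4 = N * (2 ^ N * b + a) + j := by omega
    rw [e, Nat.mul_add_div hN, Nat.div_eq_of_lt hj, add_zero, Nat.mul_add_div h2,
      Nat.div_eq_of_lt ha, add_zero, Nat.mod_eq_of_lt hb]

/-- real part or imaginary part of an entry, on the product of spheres -/
def gf (y : ℕ → EE) (N i r : ℕ) (p : PT) : ℝ :=
  if i < N then 0
  else if r % 4 = 0 then (ent (y (dj N r)) (da N r) (db N i r) p).re
  else if r % 4 = 1 then (ent (y (dj N r)) (da N r) (db N i r) p).im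
  else if r % 4 = 2 then (ent (y (dj N r)) (db N i r) (da N r) p).re
  else (ent (y (dj N r)) (db N i r) (da N r) p).im

lemma gf_continuous (y : ℕ → EE) (N i r : ℕ) : Continuous (gf y N i r) := by
  unfold gf
  have h1 := ent_continuous (y (dj N r)) (da N r) (db N i r)
  have h2 := ent_continuous (y (dj N r)) (db N i r) (da N r)
  split_ifs
  · exact continuous_const
  · exact Complex.continuous_re.comp h1
  · exact Complex.continuous_im.comp h1
  · exact Complex.continuous_re.comp h2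
  · exact Complex.continuous_im.comp h2

/-- parities -/
def gp (N i r k : ℕ) : ZMod 2 :=
  if i < N then (if k = i then 1 else 0) else pk k (da N r) + pk k (db N i r)

lemma not_blk_of_le {N k i : ℕ} (hk : N ≤ k) (hi : i < 2 ^ N) : ¬ blk k i := by
  intro h
  have := Nat.pow_le_pow_right (show 0 < 2 by norm_num) hk
  have := h.1
  omega

lemma blk_unique {k m i : ℕ} (h1 : blk k i) (h2 : blk m i) : k = m := by
  unfold blk at h1 h2
  by_contra hne
  rcases lt_or_gt_of_ne hne with h | h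
  · have := Nat.pow_le_pow_right (show 0 < 2 by norm_num) (show k + 1 ≤ m from h)
    omega
  · have := Nat.pow_le_pow_right (show 0 < 2 by norm_num) (show m + 1 ≤ k from h)
    omega

lemma gp_self (N i r : ℕ) : gp N i r i = 1 := by
  unfold gp
  by_cases h : i < N
  · rw [if_pos h, if_pos rfl]
  · rw [if_neg h]
    unfold pk
    rw [if_neg (not_blk_of_le (not_lt.mp h) (da_lt N r)), if_pos (db_blk N i r), zero_add]

lemma gp_gt (N i r k : ℕ) (hik : i < k) : gp N i r k = 0 := by
  unfold gp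
  split_ifs with h h'
  · omega
  · rfl
  · unfold pk
    rw [if_neg (not_blk_of_le (by omega) (da_lt N r)), if_neg, zero_add]
    intro hb
    exact absurd (blk_unique hb (db_blk N i r)) (by omega)

lemma gf_flip {l N : ℕ} {y : ℕ → EE} (hy : ∀ j, Lev l (y j)) (i r k : ℕ) (p : PT) :
    gf y N i r (flip k p) = sgn (gp N i r k) * gf y N i r p := by
  unfold gf gp
  by_cases h : i < N
  · rw [if_pos h, if_pos h, if_pos h, mul_zero]
  · rw [if_neg h, if_neg h, if_neg h, sgn_add]
    have e1 : ent (y (dj N r)) (da N r) (db N i r) (flip k p) =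
        ((sgn (pk k (da N r)) * sgn (pk k (db N i r)) : ℝ) : ℂ) *
          ent (y (dj N r)) (da N r) (db N i r) p := by
      rw [ent_flip (hy _), Complex.ofReal_mul, sgn_pk, sgn_pk]
    have e2 : ent (y (dj N r)) (db N i r) (da N r) (flip k p) =
        ((sgn (pk k (da N r)) * sgn (pk k (db N i r)) : ℝ) : ℂ) *
          ent (y (dj N r)) (db N i r) (da N r) p := by
      rw [ent_flip (hy _), Complex.ofReal_mul, sgn_pk, sgn_pk]
      ring
    rw [e1, e2, Complex.re_ofReal_mul, Complex.im_ofReal_mul, Complex.re_ofReal_mul,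
      Complex.im_ofReal_mul]
    split_ifs <;> rfl

open Classical in
def ff (y : ℕ → EE) (N i r : ℕ) (v : Om nn) : ℝ :=
  if h : v ∈ PP nn then gf y N i r (PT.mk v h) else 0

lemma ff_mem (y : ℕ → EE) (N i r : ℕ) (p : PT) : ff y N i r p.val = gf y N i r p := by
  unfold ff
  rw [dif_pos p.prop]
  rfl

lemma ff_continuousOn (y : ℕ → EE) (N i r : ℕ) : ContinuousOn (ff y N i r) (PP nn) := by
  rw [continuousOn_iff_continuous_domRestrict]
  have h1 : (PP nn).domRestrict (ff y N i r) = fun p : PP nn => gf y N i r p := by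
    funext p
    exact ff_mem y N i r p
  rw [h1]
  exact gf_continuous y N i r

lemma PR_ee (N t : ℕ) : PR N (ee t) = (if t < 2 ^ N then (1 : ℂ) else 0) • ee t := by
  refine lp.ext (funext fun k => ?_)
  rw [PR_apply, lp.coeFn_smul, Pi.smul_apply, ee_apply, smul_eq_mul]
  by_cases hk : k = t
  · subst hk; rfl
  · rw [if_neg hk]; simp

/-- commutation with a projection in terms of entries -/
lemma comm_of_ent {A : HH →L[ℂ] HH} {N : ℕ}
    (h : ∀ s t, ¬ (s < 2 ^ N ↔ t < 2 ^ N) → A (ee t) s = 0) : A * PR N = PR N * A := by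
  refine op_ext' fun t s => ?_
  rw [mulA, mulA, PR_ee, map_smul, lp.coeFn_smul, Pi.smul_apply, smul_eq_mul, PR_apply]
  by_cases hst : s < 2 ^ N ↔ t < 2 ^ N
  · simp only [hst]
  · rw [h s t hst, mul_zero, mul_zero]

lemma nn_ge {N i : ℕ} (h : N ≤ i) : 4 * N * 2 ^ N * 2 ^ i ≤ nn i := by
  unfold nn
  have h1 : 2 ^ N ≤ 2 ^ i := Nat.pow_le_pow_right (by norm_num) h
  have h2 : (4 : ℕ) ^ i = 2 ^ i * 2 ^ i := by
    rw [← mul_pow]; norm_num
  rw [h2]
  calc 4 * N * 2 ^ N * 2 ^ i ≤ 4 * (i + 1) * 2 ^ i * 2 ^ i := by gcongr; omega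
    _ = _ := by ring

/-- **finitely many functions of level `l` leave a small subspace invariant at some point** -/
theorem exists_comm {l N : ℕ} (y : ℕ → EE) (hy : ∀ j, Lev l (y j)) :
    ∃ p : PT, ∀ j < N, y j p * PR N = PR N * y j p := by
  have hy' : ∀ j, Lev (max l N) (y j) := fun j => (hy j).mono (le_max_left _ _)
  obtain ⟨v, hv, hz⟩ := triangular nn nn_pos (max l N) (gp N) (gp_self N) (gp_gt N) (ff y N)
    (ff_continuousOn y N) (by
      intro i _ r _ k _ v hv
      have h1 := ff_mem y N i r (flip k (PT.mk v hv))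
      have h2 := ff_mem y N i r (PT.mk v hv)
      rw [flip_val] at h1
      have e : (PT.mk v hv).val = v := rfl
      rw [e] at h1 h2
      rw [h1, h2]
      exact gf_flip hy i r k _)
  refine ⟨PT.mk v hv, ?_⟩
  set p := PT.mk v hv with hp
  have hz' : ∀ i < max l N, ∀ r < nn i, gf y N i r p = 0 := by
    intro i hi r hr
    rw [← ff_mem]
    exact hz i hi r hr
  have key : ∀ j < N, ∀ a < 2 ^ N, ∀ t, 2 ^ N ≤ t →
      ent (y j) a t p = 0 ∧ ent (y j) t a p = 0 := by
    intro j hj a ha t ht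
    by_cases htl : t < 2 ^ (max l N)
    · have ht0 : t ≠ 0 := by
        have : 0 < 2 ^ N := by positivity
        omega
      obtain ⟨i, h1, h2, hNi, hil⟩ : ∃ i, 2 ^ i ≤ t ∧ t < 2 ^ (i + 1) ∧ N ≤ i ∧ i < max l N :=
        ⟨Nat.log 2 t, Nat.pow_log_le_self 2 ht0, Nat.lt_pow_succ_log_self (by norm_num) t,
          Nat.le_log_of_pow_le (by norm_num) ht, Nat.log_lt_of_lt_pow ht0 htl⟩
      obtain ⟨b, rfl⟩ := Nat.exists_eq_add_of_le h1
      have hb : b < 2 ^ i := by rw [pow_succ] at h2; omega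
      have hnot : ¬ i < N := by omega
      have get : ∀ κ < 4, ∃ r, r < nn i ∧ r % 4 = κ ∧ dj N r = j ∧ da N r = a ∧
          db N i r = 2 ^ i + b := by
        intro κ hκ
        obtain ⟨r, h3, h4⟩ := decode hj ha hb hκ
        exact ⟨r, h3.trans_le (nn_ge hNi), h4⟩
      obtain ⟨r0, hr0, m0, e1, e2, e3⟩ := get 0 (by norm_num)
      obtain ⟨r1, hr1, m1, f1, f2, f3⟩ := get 1 (by norm_num)
      obtain ⟨r2, hr2, m2, g1, g2, g3⟩ := get 2 (by norm_num)
      obtain ⟨r3, hr3, m3, k1, k2, k3⟩ := get 3 (by norm_num)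
      have z0 := hz' i hil r0 hr0
      have z1 := hz' i hil r1 hr1
      have z2 := hz' i hil r2 hr2
      have z3 := hz' i hil r3 hr3
      unfold gf at z0 z1 z2 z3
      rw [if_neg hnot, m0, e1, e2, e3] at z0
      rw [if_neg hnot, m1, f1, f2, f3] at z1
      rw [if_neg hnot, m2, g1, g2, g3] at z2
      rw [if_neg hnot, m3, k1, k2, k3] at z3
      norm_num at z0 z1 z2 z3
      exact ⟨Complex.ext z0 z1, Complex.ext z2 z3⟩
    · have h3 : a < 2 ^ (max l N) :=
        ha.trans_le (Nat.pow_le_pow_right (by norm_num) (le_max_right _ _))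
      refine ⟨(hy' j).entry_zero le_rfl p ?_, (hy' j).entry_zero le_rfl p ?_⟩
      · intro h; exact htl (h.mp h3)
      · intro h; exact htl (h.mpr h3)
  intro j hj
  refine comm_of_ent ?_
  intro s t hst
  by_cases hs : s < 2 ^ N
  · have ht : ¬ t < 2 ^ N := fun ht => hst ⟨fun _ => ht, fun _ => hs⟩
    exact (key j hj s hs t (not_lt.mp ht)).1
  · have ht : t < 2 ^ N := by
      by_contra ht
      exact hst ⟨fun h => absurd h hs, fun h => absurd h ht⟩
    exact (key j hj t ht s (not_lt.mp hs)).2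

/-- the same for limits -/
theorem exists_comm_limit {N : ℕ} (x : ℕ → EE)
    (hx : ∀ j, ∀ ε > 0, ∃ (l : ℕ) (y : EE), Lev l y ∧ ‖x j - y‖ ≤ ε) :
    ∃ p : PT, ∀ j < N, x j p * PR N = PR N * x j p := by
  let F : PT → ℝ := fun p => ∑ j ∈ Finset.range N, ‖x j p * PR N - PR N * x j p‖
  have hF : Continuous F := by
    refine continuous_finsetSum _ fun j _ => ?_
    have h1 : Continuous fun p => x j p := (x j).continuous
    exact ((h1.mul continuous_const).sub (continuous_const.mul h1)).norm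
  obtain ⟨p0, -, hp0⟩ := isCompact_univ.exists_isMinOn Set.univ_nonempty hF.continuousOn
  have hF0 : ∀ p, 0 ≤ F p := fun p => Finset.sum_nonneg fun _ _ => norm_nonneg _
  have hbound : ∀ ε > 0, F p0 ≤ ε := by
    intro ε hε
    have hδ : 0 < ε / ((N + 1 : ℕ) * (2 * (‖PR N‖ + 1))) := by positivity
    set δ := ε / ((N + 1 : ℕ) * (2 * (‖PR N‖ + 1))) with hδd
    choose l y hy hxy using fun j => hx j δ hδ
    -- a common level
    let l0 := (Finset.range N).sup l
    let y' : ℕ → EE := fun j => if j < N then y j else 0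
    have hy0 : Lev l0 (0 : EE) := Lev.zero l0
    have hy' : ∀ j, Lev l0 (y' j) := by
      intro j
      by_cases hj : j < N
      · simp only [y', if_pos hj]
        exact (hy j).mono (Finset.le_sup (f := l) (Finset.mem_range.mpr hj))
      · simp only [y', if_neg hj]
        exact hy0
    obtain ⟨p, hp⟩ := exists_comm (N := N) y' hy'
    have h1 : F p0 ≤ F p := hp0 (Set.mem_univ p)
    have h2 : F p ≤ ∑ j ∈ Finset.range N, 2 * (‖PR N‖ + 1) * δ := by
      refine Finset.sum_le_sum fun j hj => ?_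
      have hjN := Finset.mem_range.mp hj
      have h3 := hp j hjN
      simp only [y', if_pos hjN] at h3
      have h4 : x j p * PR N - PR N * x j p = (x j p - y j p) * PR N - PR N * (x j p - y j p) := by
        rw [sub_mul, mul_sub, h3]; abel
      have h5 : ‖x j p - y j p‖ ≤ δ := ((x j - y j).norm_coe_le_norm p).trans (hxy j)
      rw [h4]
      calc ‖(x j p - y j p) * PR N - PR N * (x j p - y j p)‖
          ≤ ‖(x j p - y j p) * PR N‖ + ‖PR N * (x j p - y j p)‖ := norm_sub_le _ _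
        _ ≤ ‖x j p - y j p‖ * ‖PR N‖ + ‖PR N‖ * ‖x j p - y j p‖ :=
            add_le_add (norm_mul_le _ _) (norm_mul_le _ _)
        _ ≤ δ * (‖PR N‖ + 1) + (‖PR N‖ + 1) * δ := by
            gcongr <;> linarith
        _ = _ := by ring
    rw [Finset.sum_const, Finset.card_range, nsmul_eq_mul] at h2
    have h6 : (N : ℝ) * (2 * (‖PR N‖ + 1) * δ) ≤ ε := by
      have h7 : ((N + 1 : ℕ) : ℝ) * (2 * (‖PR N‖ + 1)) * δ = ε := by
        rw [hδd]; field_simp
      have h8 : (N : ℝ) ≤ ((N + 1 : ℕ) : ℝ) := by push_cast; linarith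
      calc (N : ℝ) * (2 * (‖PR N‖ + 1) * δ) ≤ ((N + 1 : ℕ) : ℝ) * (2 * (‖PR N‖ + 1) * δ) := by
            gcongr
        _ = ε := by rw [← h7]; ring
    linarith
  have hz : F p0 = 0 := le_antisymm (le_of_forall_pos_le_add fun ε hε => by
    rw [zero_add]; exact hbound ε hε) (hF0 p0)
  refine ⟨p0, fun j hj => ?_⟩
  have := (Finset.sum_eq_zero_iff_of_nonneg (fun _ _ => norm_nonneg _)).mp hz j
    (Finset.mem_range.mpr hj)
  exact sub_eq_zero.mp (norm_eq_zero.mp this)

end

end Pool.Agent.Y269.GP
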