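import Pool.Agent.Y269.GP.TT
import Pool.Agent.Y269.GP.Top

/-!
The algebra, its generators, separability, and failure of finite generation.
-/

namespace Pool.Agent.Y269.GP

open scoped ENNReal
open Pool.Agent.Helper133.BT Pool.Agent.Helper133.BU Filter Topology

noncomputable section

/-! ### coordinates -/

/-- the square of the Euclidean norm of a block -/
def nq (i : ℕ) (p : PT) : ℝ := ∑ b, (p.val i b) ^ 2

lemma nq_pos (i : ℕ) (p : PT) : 0 < nq i p := by
  have h1 : ∑ b, |p.val i b| = 1 := p.prop i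
  have h2 : ∃ b, p.val i b ≠ 0 := by
    by_contra hcon
    push Not at hcon
    simp [hcon] at h1
  obtain ⟨b, hb⟩ := h2
  exact Finset.sum_pos' (fun b _ => sq_nonneg _) ⟨b, Finset.mem_univ b, by positivity⟩

lemma coord_continuous (i : ℕ) (a : Fin (nn i + 1)) : Continuous fun p : PT => p.val i a :=
  (continuous_apply a).comp ((continuous_apply i).comp PT.continuous_val)

lemma nq_continuous (i : ℕ) : Continuous (nq i) := by
  unfold nq
  exact continuous_finsetSum _ fun b _ => (coord_continuous i b).pow 2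

/-- normalised coordinates -/
def co (i : ℕ) (a : Fin (nn i + 1)) (p : PT) : ℝ := p.val i a / √(nq i p)

lemma co_continuous (i : ℕ) (a : Fin (nn i + 1)) : Continuous (co i a) := by
  unfold co
  refine (coord_continuous i a).div (nq_continuous i).sqrt ?_
  intro p
  exact (Real.sqrt_pos.mpr (nq_pos i p)).ne'

lemma co_sum (i : ℕ) (p : PT) : ∑ a, (co i a p) ^ 2 = 1 := by
  have h := nq_pos i p
  have : ∀ a, (co i a p) ^ 2 = (p.val i a) ^ 2 / nq i p := by
    intro a
    rw [co, div_pow, Real.sq_sqrt h.le]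
  simp_rw [this]
  rw [← Finset.sum_div]
  exact div_self h.ne'

lemma nq_flip (i k : ℕ) (p : PT) : nq i (flip k p) = nq i p := by
  unfold nq
  refine Finset.sum_congr rfl fun b _ => ?_
  rw [flip_val, flp]
  by_cases h : i = k
  · subst h
    rw [Function.update_self, Pi.neg_apply, neg_sq]
  · rw [Function.update_of_ne h]

lemma co_flip_self (k : ℕ) (a : Fin (nn k + 1)) (p : PT) : co k a (flip k p) = -co k a p := by
  rw [co, co, nq_flip, flip_val, flp, Function.update_self, Pi.neg_apply, neg_div]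

lemma co_flip_ne {i k : ℕ} (h : i ≠ k) (a : Fin (nn i + 1)) (p : PT) :
    co i a (flip k p) = co i a p := by
  rw [co, co, nq_flip, flip_val, flp, Function.update_of_ne h]

/-- normalised coordinates, as complex functions, with a total index -/
def cc' (i c : ℕ) : C(PT, ℂ) :=
  if h : c < nn i + 1 then ⟨fun p => ((co i ⟨c, h⟩ p : ℝ) : ℂ),
    Complex.continuous_ofReal.comp (co_continuous i _)⟩ else 0

/-- functions with the parity of a basis vector -/
def psi (a c : ℕ) : C(PT, ℂ) :=
  if a = 0 then (if c = 0 then 1 else 0) else cc' (Nat.log 2 a) c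

/-- the number of indices -/
def kk (a : ℕ) : ℕ := nn (Nat.log 2 a) + 1

lemma blk_log {k a : ℕ} (ha : a ≠ 0) : blk k a ↔ k = Nat.log 2 a := by
  have h1 : blk (Nat.log 2 a) a :=
    ⟨Nat.pow_log_le_self 2 ha, Nat.lt_pow_succ_log_self (by norm_num) a⟩
  constructor
  · intro h
    exact blk_unique h h1
  · rintro rfl
    exact h1

lemma not_blk_zero (k : ℕ) : ¬ blk k 0 := by
  intro h
  have : 0 < 2 ^ k := by positivity
  have := h.1
  omega

lemma psi_flip (a c k : ℕ) (p : PT) : psi a c (flip k p) = sk k a * psi a c p := by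
  unfold psi
  by_cases ha : a = 0
  · subst ha
    rw [if_pos rfl]
    unfold sk
    rw [if_neg (not_blk_zero k), one_mul]
    split_ifs <;> rfl
  · rw [if_neg ha]
    unfold cc' sk
    simp only [blk_log ha]
    by_cases hc : c < nn (Nat.log 2 a) + 1
    · rw [dif_pos hc]
      by_cases hk : k = Nat.log 2 a
      · subst hk
        rw [if_pos rfl]
        show ((co _ _ (flip _ p) : ℝ) : ℂ) = -1 * ((co _ _ p : ℝ) : ℂ)
        rw [co_flip_self]
        push_cast
        ring
      · rw [if_neg hk]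
        show ((co _ _ (flip _ p) : ℝ) : ℂ) = 1 * ((co _ _ p : ℝ) : ℂ)
        rw [co_flip_ne (fun h => hk h.symm), one_mul]
    · rw [dif_neg hc]
      show (0 : ℂ) = _ * 0
      rw [mul_zero]

lemma psi_star (a c : ℕ) : star (psi a c) = psi a c := by
  unfold psi cc'
  split_ifs
  · exact star_one _
  · exact star_zero _
  · ext1 p
    exact Complex.conj_ofReal _
  · exact star_zero _

lemma psi_sum (a : ℕ) : ∑ c ∈ Finset.range (kk a), psi a c * psi a c = 1 := by
  ext1 p
  rw [ContinuousMap.coe_sum, Finset.sum_apply]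
  unfold psi kk
  by_cases ha : a = 0
  · subst ha
    rw [Finset.sum_eq_single 0]
    · simp
    · intro b _ hb
      simp [hb]
    · intro h
      exact absurd (Finset.mem_range.mpr (Nat.succ_pos _)) h
  · simp only [if_neg ha]
    rw [Finset.sum_range]
    have h1 : ∀ c : Fin (nn (Nat.log 2 a) + 1),
        (cc' (Nat.log 2 a) c * cc' (Nat.log 2 a) c) p = ((co _ c p ^ 2 : ℝ) : ℂ) := by
      intro c
      unfold cc'
      rw [dif_pos c.2]
      show ((co _ _ p : ℝ) : ℂ) * ((co _ _ p : ℝ) : ℂ) = _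
      push_cast
      ring
    rw [Finset.sum_congr rfl fun c _ => h1 c, ← Complex.ofReal_sum, co_sum]
    simp

/-- an algebra of operator valued functions on the product of the spheres -/
structure Amb (E : Type) [CStarAlgebra E] where
  ev : PT → (E →⋆ₐ[ℂ] (HH →L[ℂ] HH))
  cont : ∀ x, Continuous fun p => ev p x
  inj : ∀ x y, (∀ p, ev p x = ev p y) → x = y
  norm_le : ∀ x C, 0 ≤ C → (∀ p, ‖ev p x‖ ≤ C) → ‖x‖ ≤ C
  of : ∀ x : PT → (HH →L[ℂ] HH), Continuous x → E
  ev_of : ∀ (x : PT → (HH →L[ℂ] HH)) (h : Continuous x) (p : PT), ev p (of x h) = x p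

section Ambient

variable {E : Type} [CStarAlgebra E] (M : Amb E)

/-- the function associated with an element -/
def Amb.toC (x : E) : EE := ⟨fun p => M.ev p x, M.cont x⟩

/-- the element associated with a function -/
def Amb.ofC (T : EE) : E := M.of T T.continuous

lemma toC_apply (x : E) (p : PT) : M.toC x p = M.ev p x := rfl

lemma toC_ofC (T : EE) : M.toC (M.ofC T) = T := by
  ext1 p
  exact M.ev_of T T.continuous p

lemma toC_inj {x y : E} (h : M.toC x = M.toC y) : x = y :=
  M.inj x y fun p => congrArg (fun T : EE => T p) h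

lemma toC_mul (x y : E) : M.toC (x * y) = M.toC x * M.toC y := by
  ext1 p
  exact map_mul (M.ev p) x y

lemma toC_add (x y : E) : M.toC (x + y) = M.toC x + M.toC y := by
  ext1 p
  exact map_add (M.ev p) x y

lemma toC_sub (x y : E) : M.toC (x - y) = M.toC x - M.toC y := by
  ext1 p
  exact map_sub (M.ev p) x y

lemma toC_star (x : E) : M.toC (star x) = star (M.toC x) := by
  ext1 p
  exact map_star (M.ev p) x

lemma toC_smul (c : ℂ) (x : E) : M.toC (c • x) = c • M.toC x := by
  ext1 p
  exact map_smul (M.ev p) c x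

lemma toC_one : M.toC 1 = 1 := by
  ext1 p
  exact map_one (M.ev p)

lemma toC_zero : M.toC 0 = 0 := by
  ext1 p
  exact map_zero (M.ev p)

lemma toC_sum {ι : Type*} (s : Finset ι) (f : ι → E) :
    M.toC (∑ i ∈ s, f i) = ∑ i ∈ s, M.toC (f i) := by
  ext1 p
  rw [ContinuousMap.coe_sum, Finset.sum_apply]
  exact map_sum (M.ev p) f s

lemma ev_norm_le (x : E) (p : PT) : ‖M.ev p x‖ ≤ ‖x‖ :=
  NonUnitalStarAlgHom.norm_apply_le (M.ev p) x

lemma norm_toC_sub_le (x y : E) : ‖M.toC x - M.toC y‖ ≤ ‖x - y‖ := by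
  rw [← toC_sub, ContinuousMap.norm_le _ (norm_nonneg _)]
  intro p
  exact ev_norm_le M _ p

lemma norm_ofC_le (T : EE) {C : ℝ} (hC : 0 ≤ C) (h : ‖T‖ ≤ C) : ‖M.ofC T‖ ≤ C := by
  refine M.norm_le _ C hC fun p => ?_
  have : M.ev p (M.ofC T) = T p := M.ev_of T T.continuous p
  rw [this]
  exact (T.norm_coe_le_norm p).trans h

/-- the generators -/
def gen (t : ℕ × ℕ × ℕ × ℕ × ℕ) : EE :=
  if t.2.1 < 2 ^ t.1 ∧ t.2.2.1 < 2 ^ t.1 then
    TC t.1 (psi t.2.1 t.2.2.2.1 * psi t.2.2.1 t.2.2.2.2) t.2.1 t.2.2.1 else 0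

def gens : Set E := Set.range fun t => M.ofC (gen t)

/-- the algebra -/
def A0 : StarSubalgebra ℂ E := (StarAlgebra.adjoin ℂ (gens M)).topologicalClosure

lemma A0_closed : IsClosed (A0 M : Set E) := StarSubalgebra.isClosed_topologicalClosure _

lemma gen_mem {L a b : ℕ} (ha : a < 2 ^ L) (hb : b < 2 ^ L) (c c' : ℕ) :
    M.ofC (TC L (psi a c * psi b c') a b) ∈ StarAlgebra.adjoin ℂ (gens M) := by
  refine StarAlgebra.subset_adjoin _ _ ⟨(L, a, b, c, c'), ?_⟩
  simp only
  unfold gen
  rw [if_pos ⟨ha, hb⟩]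

lemma mem_A0 {x : E} (hx : x ∈ StarAlgebra.adjoin ℂ (gens M)) : x ∈ A0 M :=
  StarSubalgebra.le_topologicalClosure _ hx

lemma gen_lev (t : ℕ × ℕ × ℕ × ℕ × ℕ) : Lev t.1 (gen t) := by
  unfold gen
  split_ifs with h
  · refine TC_lev h.2 ?_
    intro k p
    show psi _ _ (flip k p) * psi _ _ (flip k p) = _ * (psi _ _ p * psi _ _ p)
    rw [psi_flip, psi_flip]
    ring
  · exact Lev.zero _

lemma adjoin_lev {x : E} (hx : x ∈ StarAlgebra.adjoin ℂ (gens M)) : ∃ l, Lev l (M.toC x) := by
  induction hx using StarAlgebra.adjoin_induction with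
  | mem x hx =>
    obtain ⟨t, rfl⟩ := hx
    refine ⟨t.1, ?_⟩
    rw [toC_ofC]
    exact gen_lev t
  | algebraMap r =>
    refine ⟨0, ?_⟩
    rw [Algebra.algebraMap_eq_smul_one, toC_smul, toC_one]
    exact Lev.smul_one 0 r
  | add x y _ _ hx hy =>
    obtain ⟨l, hl⟩ := hx
    obtain ⟨l', hl'⟩ := hy
    refine ⟨max l l', ?_⟩
    rw [toC_add]
    exact (hl.mono (le_max_left _ _)).add (hl'.mono (le_max_right _ _))
  | mul x y _ _ hx hy =>
    obtain ⟨l, hl⟩ := hx
    obtain ⟨l', hl'⟩ := hy
    refine ⟨max l l', ?_⟩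
    rw [toC_mul]
    exact (hl.mono (le_max_left _ _)).mul (hl'.mono (le_max_right _ _))
  | star x _ hx =>
    obtain ⟨l, hl⟩ := hx
    refine ⟨l, ?_⟩
    rw [toC_star]
    exact hl.star'

lemma A0_approx {x : E} (hx : x ∈ A0 M) {ε : ℝ} (hε : 0 < ε) :
    ∃ (l : ℕ) (y : E), y ∈ StarAlgebra.adjoin ℂ (gens M) ∧ Lev l (M.toC y) ∧ ‖x - y‖ ≤ ε := by
  have h1 : x ∈ closure ((StarAlgebra.adjoin ℂ (gens M) : StarSubalgebra ℂ E) : Set E) := hx
  obtain ⟨y, hy, hxy⟩ := Metric.mem_closure_iff.mp h1 ε hε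
  obtain ⟨l, hl⟩ := adjoin_lev M hy
  refine ⟨l, y, hy, hl, ?_⟩
  rw [← dist_eq_norm]
  exact hxy.le

lemma A0_separable : TopologicalSpace.IsSeparable (A0 M : Set E) := by
  have hcl : (A0 M : Set E) =
      closure ((StarAlgebra.adjoin ℂ (gens M) : StarSubalgebra ℂ E) : Set E) := rfl
  rw [hcl]
  apply TopologicalSpace.IsSeparable.closure
  set s : Set E := gens M with hs
  have hcount : (s ∪ star s).Countable := by
    have h1 : s.Countable := Set.countable_range _
    refine h1.union ?_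
    have : star s = (fun x => star x) '' s := by
      ext x
      simp only [Set.mem_star, Set.mem_image]
      constructor
      · intro h
        exact ⟨star x, h, star_star x⟩
      · rintro ⟨y, hy, rfl⟩
        rwa [star_star]
    rw [this]
    exact h1.image _
  have h2 : ((StarAlgebra.adjoin ℂ s : StarSubalgebra ℂ E) : Set E) =
      ((Submodule.span ℂ (Submonoid.closure (s ∪ star s) : Set E) : Submodule ℂ E) :
        Set E) := by
    rw [← Algebra.adjoin_eq_span]
    rfl
  rw [h2]
  apply TopologicalSpace.IsSeparable.span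
  apply Set.Countable.isSeparable
  have : Countable ↥(s ∪ star s) := hcount.to_subtype
  refine (Set.countable_range (fun l : List ↥(s ∪ star s) => (l.map Subtype.val).prod)).mono ?_
  intro x hx
  obtain ⟨l, hl, rfl⟩ := Submonoid.exists_list_of_mem_closure hx
  refine ⟨l.attach.map fun y => ⟨y.1, hl y.1 y.2⟩, ?_⟩
  simp

instance : CStarAlgebra ↥(A0 M) := StarSubalgebra.cstarAlgebra (A0 M) (h_closed := A0_closed M)

lemma separable : TopologicalSpace.SeparableSpace ↥(A0 M) := (A0_separable M).separableSpace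

/-! ### the algebra is not finitely generated -/

lemma not_all_comm (N : ℕ) (p : PT) :
    ∃ x : ↥(A0 M), M.ev p (x : E) * PR N ≠ PR N * M.ev p (x : E) := by
  by_contra hcon
  push Not at hcon
  have h0 : 0 < 2 ^ N := by positivity
  have ha : 0 < 2 ^ (N + 1) := by positivity
  have hb : 2 ^ N < 2 ^ (N + 1) := by rw [pow_succ]; omega
  have key : ∀ c, psi (2 ^ N) c p = 0 := by
    intro c
    have hmem := mem_A0 M (gen_mem M ha hb 0 c)
    have h1 := hcon ⟨_, hmem⟩
    have e1 : M.ev p (M.ofC (TC (N + 1) (psi 0 0 * psi (2 ^ N) c) 0 (2 ^ N))) =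
        TC (N + 1) (psi 0 0 * psi (2 ^ N) c) 0 (2 ^ N) p := M.ev_of _ _ p
    simp only [e1] at h1
    have h2 := congrArg (fun A : HH →L[ℂ] HH => A (ee (2 ^ N)) 0) h1
    simp only at h2
    rw [mulA, mulA, PR_ee, PR_apply, if_neg (lt_irrefl _), if_pos h0, zero_smul, map_zero,
      one_mul, TC_ee _ _ ha, if_pos ⟨rfl, rfl⟩] at h2
    have h3 : psi 0 0 p = 1 := by unfold psi; simp
    have h4 : (psi 0 0 * psi (2 ^ N) c) p = psi 0 0 p * psi (2 ^ N) c p := rfl
    rw [h4, h3, one_mul] at h2
    exact h2.symm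
  have h5 := congrArg (fun f : C(PT, ℂ) => f p) (psi_sum (2 ^ N))
  simp only [ContinuousMap.coe_sum, Finset.sum_apply] at h5
  rw [Finset.sum_eq_zero] at h5
  · exact zero_ne_one h5
  · intro c _
    show psi (2 ^ N) c p * psi (2 ^ N) c p = 0
    rw [key, mul_zero]

theorem not_finitely_generated (F : Set ↥(A0 M)) (hF : F.Finite) :
    (StarAlgebra.adjoin ℂ F).topologicalClosure ≠ ⊤ := by
  intro htop
  obtain ⟨N, f, -, hf⟩ := hF.fin_param
  -- enumerate
  let x : ℕ → ↥(A0 M) := fun j => if h : j < N then f ⟨j, h⟩ else 0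
  obtain ⟨p, hp⟩ := exists_comm_limit (N := N) (fun j => M.toC (x j : E)) (by
    intro j ε hε
    obtain ⟨l, y, -, hl, hy⟩ := A0_approx M (x j).2 hε
    exact ⟨l, M.toC y, hl, (norm_toC_sub_le M _ _).trans hy⟩)
  obtain ⟨z, hz⟩ := not_all_comm M N p
  apply hz
  have hz' : z ∈ (StarAlgebra.adjoin ℂ F).topologicalClosure := by
    rw [htop]; exact StarSubalgebra.mem_top
  have hcl : IsClosed {z : ↥(A0 M) | M.ev p (z : E) * PR N = PR N * M.ev p (z : E)} := by
    have h1 : Continuous fun z : ↥(A0 M) => M.ev p (z : E) :=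
      (AddMonoidHomClass.continuous_of_bound (M.ev p) 1 (fun x => by
        rw [one_mul]; exact ev_norm_le M x p)).comp continuous_subtype_val
    exact isClosed_eq (h1.mul continuous_const) (continuous_const.mul h1)
  have hsub : ((StarAlgebra.adjoin ℂ F : StarSubalgebra ℂ ↥(A0 M)) : Set ↥(A0 M)) ⊆
      {z : ↥(A0 M) | M.ev p (z : E) * PR N = PR N * M.ev p (z : E)} := by
    intro z hz
    induction hz using StarAlgebra.adjoin_induction with
    | mem y hy =>
      rw [← hf] at hy
      obtain ⟨⟨j, hj⟩, rfl⟩ := hy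
      have := hp j hj
      simp only [x, dif_pos hj] at this
      exact this
    | algebraMap r =>
      show M.ev p (algebraMap ℂ E r) * PR N = PR N * M.ev p (algebraMap ℂ E r)
      rw [AlgHomClass.commutes]
      exact Algebra.commutes r (PR N)
    | add x y _ _ hx hy =>
      have hx' : M.ev p (x : E) * PR N = PR N * M.ev p (x : E) := hx
      have hy' : M.ev p (y : E) * PR N = PR N * M.ev p (y : E) := hy
      show M.ev p ((x : E) + (y : E)) * PR N = PR N * M.ev p ((x : E) + (y : E))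
      rw [map_add, add_mul, mul_add, hx', hy']
    | mul x y _ _ hx hy =>
      have hx' : M.ev p (x : E) * PR N = PR N * M.ev p (x : E) := hx
      have hy' : M.ev p (y : E) * PR N = PR N * M.ev p (y : E) := hy
      show M.ev p ((x : E) * (y : E)) * PR N = PR N * M.ev p ((x : E) * (y : E))
      rw [map_mul, mul_assoc, hy', ← mul_assoc, hx', mul_assoc]
    | star x _ hx =>
      have h1 : M.ev p (x : E) * PR N = PR N * M.ev p (x : E) := hx
      have h2 := congrArg star h1
      rw [star_mul, star_mul, PR_star] at h2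
      show M.ev p (star (x : E)) * PR N = PR N * M.ev p (star (x : E))
      rw [map_star]
      exact h2.symm
  exact closure_minimal hsub hcl hz'

end Ambient

end

end Pool.Agent.Y269.GP
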