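import Pool.Agent.Y269.GP.Sp

/-!
Self-similar operator valued functions.
-/

namespace Pool.Agent.Y269.GP

open scoped ENNReal
open Pool.Agent.Helper133.BT Pool.Agent.Helper133.BU Filter Topology

noncomputable section

/-- the ambient algebra -/
abbrev EE : Type := C(PT, HH →L[ℂ] HH)

lemma mulE (S T : EE) (p : PT) : (S * T) p = S p * T p := rfl
lemma starE (S : EE) (p : PT) : (star S) p = star (S p) := rfl

/-- membership in a block -/
def blk (m i : ℕ) : Prop := 2 ^ m ≤ i ∧ i < 2 ^ (m + 1)

instance (m i : ℕ) : Decidable (blk m i) := inferInstanceAs (Decidable (_ ∧ _))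

/-- the shift to the block `m` -/
def SS (m : ℕ) : HH →L[ℂ] HH := wp (fun i => i - 2 ^ m) (fun i => if blk m i then 1 else 0)

/-- the adjoint of the shift to the block `m` -/
def SSt (m : ℕ) : HH →L[ℂ] HH := wp (fun i => 2 ^ m + i) (fun i => if i < 2 ^ m then 1 else 0)

/-- the projection on the first `2 ^ m` basis vectors -/
def PR (m : ℕ) : HH →L[ℂ] HH := wp (fun i => i) (fun i => if i < 2 ^ m then 1 else 0)

/-- a sign -/
def sk (k i : ℕ) : ℂ := if blk k i then -1 else 1

/-- the grading operator -/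
def gg (k : ℕ) : HH →L[ℂ] HH := wp (fun i => i) (fun i => sk k i)

lemma norm_ite_le (P : Prop) [Decidable P] : ‖(if P then (1 : ℂ) else 0)‖ ≤ 1 := by
  split_ifs <;> simp

lemma SS_good (m : ℕ) : Good (fun i => i - 2 ^ m) (fun i => if blk m i then (1 : ℂ) else 0) := by
  refine ⟨?_, 1, fun _ => norm_ite_le _⟩
  intro i j hi hj hij
  have h1 : blk m i := by by_contra h; simp [h] at hi
  have h2 : blk m j := by by_contra h; simp [h] at hj
  unfold blk at h1 h2
  simp only at hij
  omega

lemma SSt_good (m : ℕ) : Good (fun i => 2 ^ m + i) (fun i => if i < 2 ^ m then (1 : ℂ) else 0) := by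
  refine ⟨?_, 1, fun _ => norm_ite_le _⟩
  intro i j _ _ hij
  simp only at hij
  omega

lemma PR_good (m : ℕ) : Good (fun i => i) (fun i => if i < 2 ^ m then (1 : ℂ) else 0) :=
  ⟨fun _ _ _ _ h => h, 1, fun _ => norm_ite_le _⟩

lemma norm_sk (k i : ℕ) : ‖sk k i‖ = 1 := by
  unfold sk; split_ifs <;> simp

lemma gg_good (k : ℕ) : Good (fun i => i) (fun i => sk k i) :=
  ⟨fun _ _ _ _ h => h, 1, fun i => (norm_sk k i).le⟩

lemma SS_apply (m : ℕ) (f : HH) (i : ℕ) :
    SS m f i = (if blk m i then 1 else 0) * f (i - 2 ^ m) := wp_apply (SS_good m) f i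

lemma SSt_apply (m : ℕ) (f : HH) (i : ℕ) :
    SSt m f i = (if i < 2 ^ m then 1 else 0) * f (2 ^ m + i) := wp_apply (SSt_good m) f i

lemma PR_apply (m : ℕ) (f : HH) (i : ℕ) :
    PR m f i = (if i < 2 ^ m then 1 else 0) * f i := wp_apply (PR_good m) f i

lemma gg_apply (k : ℕ) (f : HH) (i : ℕ) : gg k f i = sk k i * f i := wp_apply (gg_good k) f i

lemma SS_star (m : ℕ) : star (SS m) = SSt m := by
  refine star_wp (SS_good m) (SSt_good m) ?_ ?_
  · intro i hi
    have h1 : blk m i := by by_contra h; simp [h] at hi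
    have h2 : i - 2 ^ m < 2 ^ m := by unfold blk at h1; rw [pow_succ] at h1; omega
    have h3 : 2 ^ m + (i - 2 ^ m) = i := by unfold blk at h1; omega
    simp [h1, h2, h3]
  · intro j hj
    have h1 : j < 2 ^ m := by by_contra h; simp [h] at hj
    have h2 : blk m (2 ^ m + j) := by unfold blk; rw [pow_succ]; omega
    simp [h1, h2]

lemma SSt_star (m : ℕ) : star (SSt m) = SS m := by rw [← SS_star, star_star]

lemma PR_star (m : ℕ) : star (PR m) = PR m := by
  refine star_wp (PR_good m) (PR_good m) ?_ ?_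
  · intro i hi
    have h1 : i < 2 ^ m := by by_contra h; simp [h] at hi
    simp [h1]
  · intro i hi
    have h1 : i < 2 ^ m := by by_contra h; simp [h] at hi
    simp [h1]

lemma conj_sk (k i : ℕ) : (starRingEnd ℂ) (sk k i) = sk k i := by
  unfold sk; split_ifs <;> simp

lemma gg_star (k : ℕ) : star (gg k) = gg k := by
  refine star_wp (gg_good k) (gg_good k) ?_ ?_
  · intro i _
    exact ⟨(conj_sk k i).symm, rfl⟩
  · intro i _
    exact ⟨(conj_sk k i).symm, rfl⟩

/-- self-similar functions of level `l` -/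
structure Lev (l : ℕ) (T : EE) : Prop where
  comm : ∀ m, l ≤ m → ∀ p, T p * PR m = PR m * T p
  shift : ∀ m, l ≤ m → ∀ p, T p * SS m = SS m * T (q m)
  shift' : ∀ m, l ≤ m → ∀ p, SSt m * T p = T (q m) * SSt m
  eqv : ∀ k p, T (flip k p) * gg k = gg k * T p

lemma flip_flip (k : ℕ) (p : PT) : flip k (flip k p) = p := by
  apply Subtype.ext
  show flp nn k (flp nn k p.val) = p.val
  unfold flp
  rw [Function.update_self, neg_neg, Function.update_idem, Function.update_eq_self]

namespace Lev

lemma mono {l l' : ℕ} {T : EE} (h : Lev l T) (hl : l ≤ l') : Lev l' T where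
  comm m hm := h.comm m (hl.trans hm)
  shift m hm := h.shift m (hl.trans hm)
  shift' m hm := h.shift' m (hl.trans hm)
  eqv := h.eqv

lemma add {l : ℕ} {S T : EE} (hS : Lev l S) (hT : Lev l T) : Lev l (S + T) where
  comm m hm p := by
    rw [ContinuousMap.add_apply, add_mul, mul_add, hS.comm m hm, hT.comm m hm]
  shift m hm p := by
    rw [ContinuousMap.add_apply, ContinuousMap.add_apply, add_mul, mul_add, hS.shift m hm,
      hT.shift m hm]
  shift' m hm p := by
    rw [ContinuousMap.add_apply, ContinuousMap.add_apply, add_mul, mul_add, hS.shift' m hm,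
      hT.shift' m hm]
  eqv k p := by
    rw [ContinuousMap.add_apply, ContinuousMap.add_apply, add_mul, mul_add, hS.eqv, hT.eqv]

lemma mul {l : ℕ} {S T : EE} (hS : Lev l S) (hT : Lev l T) : Lev l (S * T) where
  comm m hm p := by
    rw [mulE, mul_assoc, hT.comm m hm, ← mul_assoc, hS.comm m hm, mul_assoc]
  shift m hm p := by
    rw [mulE, mulE, mul_assoc, hT.shift m hm, ← mul_assoc, hS.shift m hm, mul_assoc]
  shift' m hm p := by
    rw [mulE, mulE, ← mul_assoc, hS.shift' m hm, mul_assoc, hT.shift' m hm, mul_assoc]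
  eqv k p := by
    rw [mulE, mulE, mul_assoc, hT.eqv, ← mul_assoc, hS.eqv, mul_assoc]

lemma smul_one (l : ℕ) (c : ℂ) : Lev l (c • (1 : EE)) where
  comm m _ p := by
    show (c • (1 : HH →L[ℂ] HH)) * PR m = PR m * (c • (1 : HH →L[ℂ] HH))
    rw [smul_mul_assoc, mul_smul_comm, one_mul, mul_one]
  shift m _ p := by
    show (c • (1 : HH →L[ℂ] HH)) * SS m = SS m * (c • (1 : HH →L[ℂ] HH))
    rw [smul_mul_assoc, mul_smul_comm, one_mul, mul_one]
  shift' m _ p := by
    show SSt m * (c • (1 : HH →L[ℂ] HH)) = (c • (1 : HH →L[ℂ] HH)) * SSt m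
    rw [smul_mul_assoc, mul_smul_comm, one_mul, mul_one]
  eqv k p := by
    show (c • (1 : HH →L[ℂ] HH)) * gg k = gg k * (c • (1 : HH →L[ℂ] HH))
    rw [smul_mul_assoc, mul_smul_comm, one_mul, mul_one]

lemma zero (l : ℕ) : Lev l (0 : EE) where
  comm m _ p := by
    show (0 : HH →L[ℂ] HH) * PR m = PR m * (0 : HH →L[ℂ] HH)
    rw [zero_mul, mul_zero]
  shift m _ p := by
    show (0 : HH →L[ℂ] HH) * SS m = SS m * (0 : HH →L[ℂ] HH)
    rw [zero_mul, mul_zero]
  shift' m _ p := by
    show SSt m * (0 : HH →L[ℂ] HH) = (0 : HH →L[ℂ] HH) * SSt m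
    rw [zero_mul, mul_zero]
  eqv k p := by
    show (0 : HH →L[ℂ] HH) * gg k = gg k * (0 : HH →L[ℂ] HH)
    rw [zero_mul, mul_zero]

lemma smul {l : ℕ} {T : EE} (h : Lev l T) (c : ℂ) : Lev l (c • T) where
  comm m hm p := by
    show (c • T p) * PR m = PR m * (c • T p)
    rw [smul_mul_assoc, mul_smul_comm, h.comm m hm]
  shift m hm p := by
    show (c • T p) * SS m = SS m * (c • T (q m))
    rw [smul_mul_assoc, mul_smul_comm, h.shift m hm]
  shift' m hm p := by
    show SSt m * (c • T p) = (c • T (q m)) * SSt m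
    rw [smul_mul_assoc, mul_smul_comm, h.shift' m hm]
  eqv k p := by
    show (c • T (flip k p)) * gg k = gg k * (c • T p)
    rw [smul_mul_assoc, mul_smul_comm, h.eqv]

lemma star' {l : ℕ} {T : EE} (h : Lev l T) : Lev l (star T) where
  comm m hm p := by
    have := congrArg star (h.comm m hm p)
    rw [star_mul, star_mul, PR_star] at this
    rw [starE]; exact this.symm
  shift m hm p := by
    have := congrArg star (h.shift' m hm p)
    rw [star_mul, star_mul, SSt_star] at this
    rw [starE, starE]; exact this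
  shift' m hm p := by
    have := congrArg star (h.shift m hm p)
    rw [star_mul, star_mul, SS_star] at this
    rw [starE, starE]; exact this
  eqv k p := by
    have := congrArg star (h.eqv k (flip k p))
    rw [star_mul, star_mul, gg_star, flip_flip] at this
    rw [starE, starE]; exact this.symm

/-- entries of two block diagonal functions -/
lemma entry_zero {l : ℕ} {T : EE} (h : Lev l T) {m : ℕ} (hm : l ≤ m) (p : PT) {i j : ℕ}
    (hij : ¬ (i < 2 ^ m ↔ j < 2 ^ m)) : T p (ee j) i = 0 := by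
  have h1 : (T p * PR m) (ee j) i = (PR m * T p) (ee j) i := by rw [h.comm m hm p]
  rw [mulA, mulA, PR_apply] at h1
  have h2 : PR m (ee j) = (if j < 2 ^ m then (1 : ℂ) else 0) • ee j := by
    refine lp.ext (funext fun k => ?_)
    rw [PR_apply, lp.coeFn_smul, Pi.smul_apply, ee_apply, smul_eq_mul]
    by_cases hk : k = j
    · subst hk; rfl
    · rw [if_neg hk]; simp
  rw [h2, map_smul, lp.coeFn_smul, Pi.smul_apply, smul_eq_mul] at h1
  by_cases hj : j < 2 ^ m
  · have hi : ¬ i < 2 ^ m := fun hi => hij ⟨fun _ => hj, fun _ => hi⟩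
    rw [if_pos hj, if_neg hi] at h1
    simpa using h1
  · have hi : i < 2 ^ m := by
      by_contra hi
      exact hij ⟨fun h => absurd h hi, fun h => absurd h hj⟩
    rw [if_neg hj, if_pos hi] at h1
    simpa using h1.symm

lemma SS_ee {m j : ℕ} (hj : j < 2 ^ m) : SS m (ee j) = ee (2 ^ m + j) := by
  refine lp.ext (funext fun k => ?_)
  rw [SS_apply, ee_apply, ee_apply]
  by_cases hk : k = 2 ^ m + j
  · have h2 : blk m k := by unfold blk; rw [pow_succ]; omega
    have h3 : k - 2 ^ m = j := by omega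
    rw [if_pos h2, if_pos h3, if_pos hk]; simp
  · rw [if_neg hk]
    by_cases hb : blk m k
    · have h3 : ¬ k - 2 ^ m = j := by unfold blk at hb; omega
      rw [if_neg h3, mul_zero]
    · rw [if_neg hb, zero_mul]

/-- the entries in a block -/
lemma entry_block {l : ℕ} {T : EE} (h : Lev l T) {m : ℕ} (hm : l ≤ m) (p : PT) {i j : ℕ}
    (hi : i < 2 ^ m) (hj : j < 2 ^ m) :
    T p (ee (2 ^ m + j)) (2 ^ m + i) = T (q m) (ee j) i := by
  have h1 : (T p * SS m) (ee j) (2 ^ m + i) = (SS m * T (q m)) (ee j) (2 ^ m + i) := by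
    rw [h.shift m hm p]
  rw [mulA, mulA, SS_ee hj, SS_apply] at h1
  have h2 : blk m (2 ^ m + i) := by unfold blk; rw [pow_succ]; omega
  rw [if_pos h2, one_mul] at h1
  rw [h1, Nat.add_sub_cancel_left]

/-- an element of level `l` is determined by its first block -/
lemma eq_zero {l : ℕ} {T : EE} (h : Lev l T)
    (h0 : ∀ p i j, i < 2 ^ l → j < 2 ^ l → T p (ee j) i = 0) : T = 0 := by
  have key : ∀ M, ∀ p i j, i < 2 ^ (l + M) → j < 2 ^ (l + M) → T p (ee j) i = 0 := by
    intro M
    induction M with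
    | zero => exact h0
    | succ M ih =>
      intro p i j hi hj
      have e1 : 2 ^ (l + (M + 1)) = 2 ^ (l + M) + 2 ^ (l + M) := by
        rw [← add_assoc, pow_succ]; ring
      by_cases hij : i < 2 ^ (l + M) ↔ j < 2 ^ (l + M)
      · by_cases hi' : i < 2 ^ (l + M)
        · exact ih p i j hi' (hij.mp hi')
        · have hj' : ¬ j < 2 ^ (l + M) := fun hj' => hi' (hij.mpr hj')
          obtain ⟨i', rfl⟩ := Nat.exists_eq_add_of_le (not_lt.mp hi')
          obtain ⟨j', rfl⟩ := Nat.exists_eq_add_of_le (not_lt.mp hj')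
          rw [h.entry_block (by omega) p (by omega) (by omega)]
          exact ih _ _ _ (by omega) (by omega)
      · exact h.entry_zero (by omega) p hij
  ext1 p
  refine op_ext' fun j i => ?_
  have h1 : i < 2 ^ (l + (i + j)) := by
    calc i ≤ l + (i + j) := by omega
      _ < _ := Nat.lt_two_pow_self
  have h2 : j < 2 ^ (l + (i + j)) := by
    calc j ≤ l + (i + j) := by omega
      _ < _ := Nat.lt_two_pow_self
  rw [key _ p i j h1 h2]
  rfl

end Lev

end

end Pool.Agent.Y269.GP
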