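import Mathlib

/-!
Weighted partial injections of the natural numbers as operators on the square summable sequences.
-/

namespace Pool.Agent.Y269.GP

open scoped ENNReal

noncomputable section

/-- square summable sequences -/
abbrev HH : Type := lp (fun _ : ℕ => ℂ) 2

lemma two_pos' : 0 < (2 : ℝ≥0∞).toReal := by norm_num

/-- the standard basis -/
def ee (i : ℕ) : HH := lp.single 2 i 1

lemma ee_apply (i j : ℕ) : ee i j = if j = i then 1 else 0 := by
  unfold ee
  by_cases h : j = i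
  · subst h
    rw [lp.single_apply_self, if_pos rfl]
  · rw [lp.single_apply_ne _ _ _ h, if_neg h]

lemma inner_ee (i : ℕ) (f : HH) : inner ℂ (ee i) f = f i := by
  unfold ee
  rw [lp.inner_single_left]
  simp

/-- the conditions for a weighted partial injection -/
def Good (σ : ℕ → ℕ) (w : ℕ → ℂ) : Prop :=
  (∀ i j, w i ≠ 0 → w j ≠ 0 → σ i = σ j → i = j) ∧ ∃ C : ℝ, ∀ i, ‖w i‖ ≤ C

lemma sum_le {σ : ℕ → ℕ} {w : ℕ → ℂ} {C : ℝ}
    (h : ∀ i j, w i ≠ 0 → w j ≠ 0 → σ i = σ j → i = j)
    (hC : ∀ i, ‖w i‖ ≤ C) (f : HH) (s : Finset ℕ) :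
    ∑ i ∈ s, ‖w i * f (σ i)‖ ^ (2 : ℝ≥0∞).toReal ≤ (C * ‖f‖) ^ (2 : ℝ≥0∞).toReal := by
  classical
  have hC0 : 0 ≤ C := (norm_nonneg _).trans (hC 0)
  have e2 : (2 : ℝ≥0∞).toReal = (2 : ℕ) := by norm_num
  have h1 : ∑ i ∈ s, ‖w i * f (σ i)‖ ^ (2 : ℝ≥0∞).toReal
      = ∑ i ∈ s.filter (fun i => w i ≠ 0), ‖w i * f (σ i)‖ ^ (2 : ℝ≥0∞).toReal := by
    symm
    apply Finset.sum_filter_of_ne
    intro i _ hi hw
    apply hi
    rw [hw, e2]
    simp
  rw [h1]
  have h2 : ∀ i ∈ s.filter (fun i => w i ≠ 0), ‖w i * f (σ i)‖ ^ (2 : ℝ≥0∞).toReal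
      ≤ C ^ 2 * ‖f (σ i)‖ ^ (2 : ℝ≥0∞).toReal := by
    intro i _
    rw [e2, Real.rpow_natCast, Real.rpow_natCast, norm_mul, mul_pow]
    have := hC i
    gcongr
  refine (Finset.sum_le_sum h2).trans ?_
  rw [← Finset.mul_sum]
  have h3 : ∑ i ∈ s.filter (fun i => w i ≠ 0), ‖f (σ i)‖ ^ (2 : ℝ≥0∞).toReal =
      ∑ j ∈ (s.filter (fun i => w i ≠ 0)).image σ, ‖f j‖ ^ (2 : ℝ≥0∞).toReal := by
    rw [Finset.sum_image]
    intro i hi j hj hij
    exact h i j (Finset.mem_filter.mp hi).2 (Finset.mem_filter.mp hj).2 hij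
  rw [h3]
  have h4 := lp.sum_rpow_le_norm_rpow two_pos' f ((s.filter (fun i => w i ≠ 0)).image σ)
  calc C ^ 2 * _ ≤ C ^ 2 * ‖f‖ ^ (2 : ℝ≥0∞).toReal := by gcongr
    _ = _ := by
      rw [e2, Real.rpow_natCast, Real.rpow_natCast, mul_pow]

open Classical in
/-- the operator `(wp σ w f) i = w i * f (σ i)` -/
def wp (σ : ℕ → ℕ) (w : ℕ → ℂ) : HH →L[ℂ] HH :=
  if h : Good σ w then
    LinearMap.mkContinuous
      { toFun := fun f => ⟨fun i => w i * f (σ i), by
          obtain ⟨h1, C, hC⟩ := h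
          exact memℓp_gen' (sum_le h1 hC f)⟩
        map_add' := by
          intro f g
          refine lp.ext (funext fun i => ?_)
          change w i * (f + g) (σ i) = w i * f (σ i) + w i * g (σ i)
          rw [lp.coeFn_add, Pi.add_apply, mul_add]
        map_smul' := by
          intro c f
          refine lp.ext (funext fun i => ?_)
          change w i * (c • f) (σ i) = c * (w i * f (σ i))
          rw [lp.coeFn_smul, Pi.smul_apply, smul_eq_mul]
          ring } h.2.choose (by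
      intro f
      have hC := h.2.choose_spec
      have hC0 : 0 ≤ h.2.choose := (norm_nonneg _).trans (hC 0)
      refine lp.norm_le_of_forall_sum_le two_pos' (by positivity) ?_
      exact sum_le h.1 hC f)
  else 0

lemma wp_apply {σ : ℕ → ℕ} {w : ℕ → ℂ} (h : Good σ w) (f : HH) (i : ℕ) :
    wp σ w f i = w i * f (σ i) := by
  unfold wp
  rw [dif_pos h]
  rfl

lemma norm_wp_le {σ : ℕ → ℕ} {w : ℕ → ℂ} (h : Good σ w) {C : ℝ} (hC : ∀ i, ‖w i‖ ≤ C) :
    ‖wp σ w‖ ≤ C := by
  have hC0 : 0 ≤ C := (norm_nonneg _).trans (hC 0)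
  refine ContinuousLinearMap.opNorm_le_bound _ hC0 ?_
  intro f
  refine lp.norm_le_of_forall_sum_le two_pos' (by positivity) ?_
  intro s
  simp only [wp_apply h]
  exact sum_le h.1 hC f s

/-- two operators agree if their values agree coordinatewise -/
lemma op_ext {A B : HH →L[ℂ] HH} (h : ∀ f i, A f i = B f i) : A = B :=
  ContinuousLinearMap.ext fun f => lp.ext (funext fun i => h f i)

lemma mulA (A B : HH →L[ℂ] HH) (f : HH) : (A * B) f = A (B f) := rfl

lemma oneA (f : HH) : (1 : HH →L[ℂ] HH) f = f := rfl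

/-- two operators agree if all matrix entries agree -/
lemma op_ext' {A B : HH →L[ℂ] HH} (h : ∀ j i, A (ee j) i = B (ee j) i) : A = B := by
  have key : ∀ j, A (ee j) = B (ee j) := fun j => lp.ext (funext fun i => h j i)
  refine ContinuousLinearMap.ext fun f => ?_
  have hs := lp.hasSum_single (p := 2) (by norm_num) f
  have hA := hs.mapL A
  have hB := hs.mapL B
  refine hA.unique ?_
  convert hB using 1
  funext j
  have : lp.single 2 j (f j) = f j • ee j := by
    unfold ee
    rw [← lp.single_smul]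
    simp
  rw [this, map_smul, map_smul, key]

lemma star_wp {σ τ : ℕ → ℕ} {w v : ℕ → ℂ} (hw : Good σ w) (hv : Good τ v)
    (h1 : ∀ i, w i ≠ 0 → v (σ i) = (starRingEnd ℂ) (w i) ∧ τ (σ i) = i)
    (h2 : ∀ j, v j ≠ 0 → w (τ j) = (starRingEnd ℂ) (v j) ∧ σ (τ j) = j) :
    star (wp σ w) = wp τ v := by
  refine op_ext fun f i => ?_
  rw [wp_apply hv, ← inner_ee i, ContinuousLinearMap.star_eq_adjoint,
    ContinuousLinearMap.adjoint_inner_right]
  by_cases hi : v i = 0
  · have : wp σ w (ee i) = 0 := by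
      refine lp.ext (funext fun k => ?_)
      rw [wp_apply hw, ee_apply]
      by_cases hk : σ k = i
      · by_cases hk' : w k = 0
        · rw [hk']; simp
        · exfalso
          have := (h1 k hk').1
          rw [hk, hi] at this
          exact hk' ((map_eq_zero _).mp this.symm)
      · rw [if_neg hk]; simp
    rw [this, inner_zero_left, hi, zero_mul]
  · obtain ⟨h3, h4⟩ := h2 i hi
    have : wp σ w (ee i) = w (τ i) • ee (τ i) := by
      refine lp.ext (funext fun k => ?_)
      rw [wp_apply hw, ee_apply, lp.coeFn_smul, Pi.smul_apply, ee_apply, smul_eq_mul]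
      by_cases hk : k = τ i
      · subst hk
        rw [h4]; simp
      · rw [if_neg hk, mul_zero]
        by_cases hk' : w k = 0
        · rw [hk', zero_mul]
        · rw [if_neg, mul_zero]
          intro h5
          apply hk
          rw [← h5]
          exact ((h1 k hk').2).symm
    rw [this, inner_smul_left, inner_ee, h3]
    simp

end

end Pool.Agent.Y269.GP
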