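import Pool.Agent.Helper133.BUProd
import Pool.Agent.Y269.GP.Op

/-!
The product of spheres, a sequence of base points, and self-similar weights.
-/

namespace Pool.Agent.Y269.GP

open scoped ENNReal
open Pool.Agent.Helper133.BT Pool.Agent.Helper133.BU Filter Topology

noncomputable section

/-- the dimensions of the spheres -/
def nn (m : ℕ) : ℕ := 4 * (m + 1) * 4 ^ m

lemma nn_pos (i : ℕ) : 1 ≤ nn i := by
  unfold nn
  have : 0 < 4 ^ i := by positivity
  nlinarith

/-- the product of the spheres -/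
def PT : Type := ↥(PP nn)

instance : TopologicalSpace PT := inferInstanceAs (TopologicalSpace ↥(PP nn))

instance : CompactSpace PT := isCompact_iff_compactSpace.mp (PP_compact nn)

instance : SecondCountableTopology PT := inferInstanceAs (SecondCountableTopology ↥(PP nn))

/-- the coordinates of a point -/
def PT.val (p : PT) : Om nn := Subtype.val p

lemma PT.prop (p : PT) : p.val ∈ PP nn := Subtype.property p

lemma PT.continuous_val : Continuous PT.val := continuous_subtype_val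

def PT.mk (v : Om nn) (h : v ∈ PP nn) : PT := ⟨v, h⟩

instance : Nonempty PT := ⟨PT.mk (v0 nn) (v0_mem nn)⟩

/-- the antipodal map in one factor -/
def flip (k : ℕ) (p : PT) : PT := PT.mk (flp nn k p.val) (flp_mem nn k p.prop)

lemma flip_val (k : ℕ) (p : PT) : (flip k p).val = flp nn k p.val := rfl

/-- the base points -/
def q (m : ℕ) : PT := TopologicalSpace.denseSeq PT (Nat.unpair m).2

lemma q_spec {U : Set PT} (hU : IsOpen U) (hne : U.Nonempty) (l : ℕ) : ∃ m, l ≤ m ∧ q m ∈ U := by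
  obtain ⟨p, hp, j, rfl⟩ := (TopologicalSpace.denseRange_denseSeq PT).exists_mem_open hU hne |>.elim
    (fun j hj => (⟨_, hj, j, rfl⟩ : ∃ p, p ∈ U ∧ ∃ j, TopologicalSpace.denseSeq PT j = p))
  refine ⟨Nat.pair l j, Nat.left_le_pair l j, ?_⟩
  unfold q
  rw [Nat.unpair_pair]
  exact hp

/-- self-similar weights -/
def W (L : ℕ) (φ : PT → ℂ) : ℕ → PT → ℂ
  | 0, p => φ p
  | (c + 1), _ => W L φ (c + 1 - 2 ^ Nat.log 2 (c + 1)) (q (L + Nat.log 2 (c + 1)))
termination_by c => c
decreasing_by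
  have : 0 < 2 ^ Nat.log 2 (c + 1) := by positivity
  omega

lemma W_zero (L : ℕ) (φ : PT → ℂ) (p : PT) : W L φ 0 p = φ p := by
  rw [W]

lemma W_pos (L : ℕ) (φ : PT → ℂ) {c : ℕ} (hc : c ≠ 0) (p : PT) :
    W L φ c p = W L φ (c - 2 ^ Nat.log 2 c) (q (L + Nat.log 2 c)) := by
  obtain ⟨c, rfl⟩ := Nat.exists_eq_succ_of_ne_zero hc
  rw [W]

lemma W_const (L : ℕ) (φ : PT → ℂ) {c : ℕ} (hc : c ≠ 0) (p p' : PT) :
    W L φ c p = W L φ c p' := by
  rw [W_pos L φ hc p, W_pos L φ hc p']

lemma W_mul (L : ℕ) (φ ψ : PT → ℂ) (c : ℕ) (p : PT) :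
    W L (fun p => φ p * ψ p) c p = W L φ c p * W L ψ c p := by
  induction c using Nat.strong_induction_on generalizing p with
  | _ c ih =>
    by_cases hc : c = 0
    · subst hc; rw [W_zero, W_zero, W_zero]
    · rw [W_pos L _ hc, W_pos L φ hc, W_pos L ψ hc]
      have : 0 < 2 ^ Nat.log 2 c := by positivity
      exact ih _ (by omega) _

lemma W_sum {ι : Type*} (s : Finset ι) (L : ℕ) (φ : ι → PT → ℂ) (c : ℕ) (p : PT) :
    W L (fun p => ∑ i ∈ s, φ i p) c p = ∑ i ∈ s, W L (φ i) c p := by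
  induction c using Nat.strong_induction_on generalizing p with
  | _ c ih =>
    by_cases hc : c = 0
    · subst hc; simp only [W_zero]
    · rw [W_pos L _ hc]
      have : 0 < 2 ^ Nat.log 2 c := by positivity
      rw [ih _ (by omega) _]
      refine Finset.sum_congr rfl fun i _ => ?_
      rw [W_pos L (φ i) hc]

lemma W_one (L : ℕ) (c : ℕ) (p : PT) : W L (fun _ => 1) c p = 1 := by
  induction c using Nat.strong_induction_on generalizing p with
  | _ c ih =>
    by_cases hc : c = 0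
    · subst hc; rw [W_zero]
    · rw [W_pos L _ hc]
      have : 0 < 2 ^ Nat.log 2 c := by positivity
      exact ih _ (by omega) _

lemma W_conj (L : ℕ) (φ : PT → ℂ) (c : ℕ) (p : PT) :
    W L (fun p => (starRingEnd ℂ) (φ p)) c p = (starRingEnd ℂ) (W L φ c p) := by
  induction c using Nat.strong_induction_on generalizing p with
  | _ c ih =>
    by_cases hc : c = 0
    · subst hc; rw [W_zero, W_zero]
    · rw [W_pos L _ hc, W_pos L φ hc]
      have : 0 < 2 ^ Nat.log 2 c := by positivity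
      exact ih _ (by omega) _

lemma norm_W_le (L : ℕ) {φ : PT → ℂ} {C : ℝ} (hC : ∀ p, ‖φ p‖ ≤ C) (c : ℕ) (p : PT) :
    ‖W L φ c p‖ ≤ C := by
  induction c using Nat.strong_induction_on generalizing p with
  | _ c ih =>
    by_cases hc : c = 0
    · subst hc; rw [W_zero]; exact hC p
    · rw [W_pos L _ hc]
      have : 0 < 2 ^ Nat.log 2 c := by positivity
      exact ih _ (by omega) _

/-- arithmetic of blocks -/
lemma div_block {L m i : ℕ} (hm : L ≤ m) (hi : i < 2 ^ m) :
    (2 ^ m + i) / 2 ^ L ≠ 0 ∧ Nat.log 2 ((2 ^ m + i) / 2 ^ L) = m - L ∧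
      (2 ^ m + i) / 2 ^ L - 2 ^ (m - L) = i / 2 ^ L := by
  have h0 : 0 < 2 ^ L := by positivity
  have h1 : 2 ^ m = 2 ^ L * 2 ^ (m - L) := by rw [← pow_add]; congr 1; omega
  have h2 : (2 ^ m + i) / 2 ^ L = 2 ^ (m - L) + i / 2 ^ L := by
    rw [h1, Nat.mul_add_div h0]
  have h3 : i / 2 ^ L < 2 ^ (m - L) := by
    rw [Nat.div_lt_iff_lt_mul h0, mul_comm, ← h1]
    exact hi
  have h4 : 0 < 2 ^ (m - L) := by positivity
  rw [h2]
  generalize i / 2 ^ L = t at h3
  refine ⟨by omega, ?_, by omega⟩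
  apply Nat.log_eq_of_pow_le_of_lt_pow
  · omega
  · rw [pow_succ]; omega

lemma W_block (L : ℕ) (φ : PT → ℂ) {m i : ℕ} (hm : L ≤ m) (hi : i < 2 ^ m) (p : PT) :
    W L φ ((2 ^ m + i) / 2 ^ L) p = W L φ (i / 2 ^ L) (q m) := by
  obtain ⟨h1, h2, h3⟩ := div_block hm hi
  rw [W_pos L φ h1, h2, h3]
  congr 2
  omega

end

end Pool.Agent.Y269.GP
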