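import Pool.Agent.Y269.GP.Lv

/-!
The self-similar functions with one nonzero entry in the first block.
-/

namespace Pool.Agent.Y269.GP

open scoped ENNReal
open Pool.Agent.Helper133.BT Pool.Agent.Helper133.BU Filter Topology

noncomputable section

def sgm (L b i : ℕ) : ℕ := 2 ^ L * (i / 2 ^ L) + b

def wt (L : ℕ) (φ : PT → ℂ) (a : ℕ) (p : PT) (i : ℕ) : ℂ :=
  if i % 2 ^ L = a then W L φ (i / 2 ^ L) p else 0

lemma wt_ne {L : ℕ} {φ : PT → ℂ} {a : ℕ} {p : PT} {i : ℕ} (h : wt L φ a p i ≠ 0) :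
    i % 2 ^ L = a ∧ wt L φ a p i = W L φ (i / 2 ^ L) p := by
  unfold wt at h ⊢
  by_cases h' : i % 2 ^ L = a
  · exact ⟨h', if_pos h'⟩
  · rw [if_neg h'] at h; exact absurd rfl h

lemma sgm_div {L b : ℕ} (hb : b < 2 ^ L) (i : ℕ) : sgm L b i / 2 ^ L = i / 2 ^ L := by
  unfold sgm
  rw [Nat.mul_add_div (by positivity), Nat.div_eq_of_lt hb, add_zero]

lemma sgm_mod {L b : ℕ} (hb : b < 2 ^ L) (i : ℕ) : sgm L b i % 2 ^ L = b := by
  unfold sgm
  rw [Nat.mul_add_mod, Nat.mod_eq_of_lt hb]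

lemma sgm_self {L i : ℕ} : sgm L (i % 2 ^ L) i = i := Nat.div_add_mod i (2 ^ L)

lemma sgm_sgm {L b : ℕ} (hb : b < 2 ^ L) (c i : ℕ) : sgm L c (sgm L b i) = sgm L c i := by
  unfold sgm
  rw [Nat.mul_add_div (by positivity), Nat.div_eq_of_lt hb, add_zero]

lemma TT_good {L : ℕ} {φ : PT → ℂ} {C : ℝ} (hC : ∀ p, ‖φ p‖ ≤ C) (a b : ℕ) (p : PT) :
    Good (sgm L b) (wt L φ a p) := by
  refine ⟨?_, max C 0, ?_⟩
  · intro i j hi hj hij
    have h1 := (wt_ne hi).1
    have h2 := (wt_ne hj).1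
    unfold sgm at hij
    rw [← Nat.div_add_mod i (2 ^ L), ← Nat.div_add_mod j (2 ^ L), h1, h2]
    omega
  · intro i
    unfold wt
    split_ifs
    · exact (norm_W_le L hC _ _).trans (le_max_left _ _)
    · simp

/-- a bound for a continuous function -/
lemma bdd (φ : C(PT, ℂ)) : ∀ p, ‖φ p‖ ≤ ‖φ‖ := fun p => φ.norm_coe_le_norm p

def TT (L : ℕ) (φ : PT → ℂ) (a b : ℕ) (p : PT) : HH →L[ℂ] HH := wp (sgm L b) (wt L φ a p)

lemma TT_apply (L : ℕ) (φ : C(PT, ℂ)) (a b : ℕ) (p : PT) (f : HH) (i : ℕ) :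
    TT L φ a b p f i = wt L φ a p i * f (sgm L b i) :=
  wp_apply (TT_good (bdd φ) a b p) f i

lemma TT_continuous (L : ℕ) (φ : C(PT, ℂ)) (a b : ℕ) : Continuous (TT L φ a b) := by
  obtain ⟨p0⟩ : Nonempty PT := inferInstance
  let u : ℕ → ℂ := fun i => if i % 2 ^ L = a ∧ i / 2 ^ L = 0 then 1 else 0
  let v : ℕ → ℂ := fun i => if i / 2 ^ L = 0 then 0 else wt L φ a p0 i
  have hu : Good (sgm L b) u := by
    refine ⟨?_, 1, fun _ => norm_ite_le _⟩
    intro i j hi hj _
    have h1 : i % 2 ^ L = a ∧ i / 2 ^ L = 0 := by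
      by_contra h; simp only [u, if_neg h] at hi; exact hi rfl
    have h2 : j % 2 ^ L = a ∧ j / 2 ^ L = 0 := by
      by_contra h; simp only [u, if_neg h] at hj; exact hj rfl
    rw [← Nat.div_add_mod i (2 ^ L), ← Nat.div_add_mod j (2 ^ L), h1.1, h2.1, h1.2, h2.2]
  have hv : Good (sgm L b) v := by
    obtain ⟨h1, C, hC⟩ := TT_good (L := L) (bdd φ) a b p0
    refine ⟨?_, max C 0, ?_⟩
    · intro i j hi hj hij
      refine h1 i j ?_ ?_ hij
      · intro h; apply hi; simp [v, h]
      · intro h; apply hj; simp [v, h]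
    · intro i
      simp only [v]
      split_ifs
      · simp
      · exact (hC i).trans (le_max_left _ _)
  have key : ∀ p, TT L φ a b p = φ p • wp (sgm L b) u + wp (sgm L b) v := by
    intro p
    refine op_ext fun f i => ?_
    rw [TT_apply, _root_.add_apply, _root_.smul_apply, lp.coeFn_add,
      Pi.add_apply, lp.coeFn_smul, Pi.smul_apply, wp_apply hu, wp_apply hv, smul_eq_mul]
    simp only [u, v, wt]
    by_cases h0 : i / 2 ^ L = 0
    · rw [h0, W_zero]
      by_cases h1 : i % 2 ^ L = a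
      · simp [h1]
      · simp [h1]
    · simp only [h0, and_false, if_false, zero_mul, mul_zero, zero_add]
      rw [W_const L φ h0 p p0]
  have : TT L φ a b = fun p => φ p • wp (sgm L b) u + wp (sgm L b) v := funext key
  rw [this]
  exact (φ.continuous.smul continuous_const).add continuous_const

/-- the element with first block `φ • e_{ab}` -/
def TC (L : ℕ) (φ : C(PT, ℂ)) (a b : ℕ) : EE := ⟨TT L φ a b, TT_continuous L φ a b⟩

lemma TC_apply (L : ℕ) (φ : C(PT, ℂ)) (a b : ℕ) (p : PT) (f : HH) (i : ℕ) :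
    TC L φ a b p f i = wt L φ a p i * f (sgm L b i) := TT_apply L φ a b p f i

lemma TC_mul {L : ℕ} (φ ψ : C(PT, ℂ)) (a b d : ℕ) (hb : b < 2 ^ L) :
    TC L φ a b * TC L ψ b d = TC L (φ * ψ) a d := by
  ext1 p
  refine op_ext fun f i => ?_
  rw [mulE, mulA, TC_apply, TC_apply, TC_apply, sgm_sgm hb]
  unfold wt
  rw [sgm_mod hb, sgm_div hb, if_pos rfl]
  by_cases h : i % 2 ^ L = a
  · rw [if_pos h, if_pos h]
    have := W_mul L φ ψ (i / 2 ^ L) p
    have e : (⇑(φ * ψ) : PT → ℂ) = fun p => φ p * ψ p := rfl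
    rw [e, this, mul_assoc]
  · rw [if_neg h, if_neg h]; simp

lemma TC_star {L : ℕ} (φ : C(PT, ℂ)) {a b : ℕ} (ha : a < 2 ^ L) (hb : b < 2 ^ L) :
    star (TC L φ a b) = TC L (star φ) b a := by
  ext1 p
  rw [starE]
  have e : (⇑(star φ) : PT → ℂ) = fun p => (starRingEnd ℂ) (φ p) := rfl
  refine star_wp (TT_good (bdd φ) a b p) (TT_good (bdd (star φ)) b a p) ?_ ?_
  · intro i hi
    obtain ⟨h1, h2⟩ := wt_ne hi
    rw [h2]
    refine ⟨?_, ?_⟩
    · unfold wt
      rw [sgm_mod hb, sgm_div hb, if_pos rfl, e, W_conj]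
    · rw [sgm_sgm hb, ← h1, sgm_self]
  · intro i hi
    obtain ⟨h1, h2⟩ := wt_ne hi
    rw [h2]
    refine ⟨?_, ?_⟩
    · unfold wt
      rw [sgm_mod ha, sgm_div ha, if_pos rfl, e, W_conj]
      simp
    · rw [sgm_sgm ha, ← h1, sgm_self]

lemma TC_sum {ι : Type*} (s : Finset ι) (L : ℕ) (φ : ι → C(PT, ℂ)) (a b : ℕ) :
    ∑ x ∈ s, TC L (φ x) a b = TC L (∑ x ∈ s, φ x) a b := by
  classical
  induction s using Finset.induction_on with
  | empty =>
    rw [Finset.sum_empty, Finset.sum_empty]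
    ext1 p
    refine op_ext fun f i => ?_
    rw [TC_apply]
    have h1 : wt L (⇑(0 : C(PT, ℂ))) a p i = 0 := by
      unfold wt
      have := W_sum (∅ : Finset ℕ) L (fun _ _ => (0 : ℂ)) (i / 2 ^ L) p
      simp only [Finset.sum_empty] at this
      have e : (⇑(0 : C(PT, ℂ)) : PT → ℂ) = fun _ => 0 := rfl
      rw [e, this, ite_self]
    rw [h1, zero_mul]
    rfl
  | insert x s hx ih =>
    rw [Finset.sum_insert hx, Finset.sum_insert hx, ih]
    ext1 p
    refine op_ext fun f i => ?_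
    rw [ContinuousMap.add_apply, _root_.add_apply, lp.coeFn_add, Pi.add_apply,
      TC_apply, TC_apply, TC_apply, ← add_mul]
    congr 1
    unfold wt
    by_cases h : i % 2 ^ L = a
    · rw [if_pos h, if_pos h, if_pos h]
      have := W_sum (Finset.univ : Finset Bool) L
        (fun t p => if t then φ x p else (∑ x ∈ s, φ x) p) (i / 2 ^ L) p
      simp only [Fintype.univ_bool, Finset.sum_insert (show true ∉ ({false} : Finset Bool) by simp),
        Finset.sum_singleton] at this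
      simp only [if_true, Bool.false_eq_true, if_false] at this
      have e : (⇑(φ x + ∑ x ∈ s, φ x) : PT → ℂ) = fun p => φ x p + (∑ x ∈ s, φ x) p := rfl
      rw [e, this]
    · rw [if_neg h, if_neg h, if_neg h, add_zero]

lemma sum_TC_one (L : ℕ) : ∑ a ∈ Finset.range (2 ^ L), TC L 1 a a = 1 := by
  ext1 p
  refine op_ext fun f i => ?_
  have h0 : 0 < 2 ^ L := by positivity
  have h1 : ∀ s : Finset ℕ, (∑ a ∈ s, TC L 1 a a) p f i = ∑ a ∈ s, TC L 1 a a p f i := by
    intro s
    rw [ContinuousMap.coe_sum, Finset.sum_apply, _root_.sum_apply, lp.coeFn_sum,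
      Finset.sum_apply]
  rw [h1, Finset.sum_eq_single (i % 2 ^ L)]
  · rw [TC_apply, sgm_self]
    unfold wt
    rw [if_pos rfl]
    have e : (⇑(1 : C(PT, ℂ)) : PT → ℂ) = fun _ => 1 := rfl
    rw [e, W_one, one_mul]
    rfl
  · intro b _ hb
    rw [TC_apply]
    unfold wt
    rw [if_neg (fun h => hb h.symm), zero_mul]
  · intro h
    exact absurd (Finset.mem_range.mpr (Nat.mod_lt _ h0)) h

lemma lt_pow_iff {L m i : ℕ} (hm : L ≤ m) : i < 2 ^ m ↔ i / 2 ^ L < 2 ^ (m - L) := by
  have h1 : 2 ^ m = 2 ^ (m - L) * 2 ^ L := by rw [← pow_add]; congr 1; omega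
  rw [Nat.div_lt_iff_lt_mul (by positivity), ← h1]

lemma lt_sgm {L m b : ℕ} (hm : L ≤ m) (hb : b < 2 ^ L) (i : ℕ) :
    sgm L b i < 2 ^ m ↔ i < 2 ^ m := by
  rw [lt_pow_iff hm, sgm_div hb, ← lt_pow_iff hm]

lemma blk_sgm {L m b : ℕ} (hm : L ≤ m) (hb : b < 2 ^ L) (i : ℕ) : blk m (sgm L b i) ↔ blk m i := by
  unfold blk
  rw [lt_sgm (by omega) hb, ← not_lt, lt_sgm hm hb, not_lt]

lemma not_blk {L k i : ℕ} (hk : k < L) (hi : ¬ i / 2 ^ L = 0) : ¬ blk k i := by
  intro h
  apply hi
  apply Nat.div_eq_of_lt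
  exact h.2.trans_le (Nat.pow_le_pow_right (by norm_num) hk)

lemma not_blk' {L k i : ℕ} (hk : L ≤ k) (hi : i < 2 ^ L) : ¬ blk k i := by
  intro h
  have := Nat.pow_le_pow_right (show 0 < 2 by norm_num) hk
  have := h.1
  omega

lemma TC_lev {L : ℕ} {φ : C(PT, ℂ)} {a b : ℕ} (hb : b < 2 ^ L)
    (hφ : ∀ k p, φ (flip k p) = sk k a * sk k b * φ p) : Lev L (TC L φ a b) where
  comm m hm p := by
    refine op_ext fun f i => ?_
    rw [mulA, mulA, TC_apply, PR_apply, PR_apply, TC_apply]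
    simp only [lt_sgm hm hb]
    ring
  shift m hm p := by
    refine op_ext fun f i => ?_
    rw [mulA, mulA, TC_apply, SS_apply, SS_apply, TC_apply]
    simp only [blk_sgm hm hb]
    by_cases h : blk m i
    · rw [if_pos h, one_mul, one_mul]
      obtain ⟨i', rfl⟩ := Nat.exists_eq_add_of_le h.1
      have hi' : i' < 2 ^ m := by have := h.2; rw [pow_succ] at this; omega
      have h1 : sgm L b (2 ^ m + i') = 2 ^ m + sgm L b i' := by
        have e : 2 ^ m = 2 ^ L * 2 ^ (m - L) := by rw [← pow_add]; congr 1; omega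
        unfold sgm
        rw [e, Nat.mul_add_div (by positivity)]
        ring
      have h2 : wt L φ a p (2 ^ m + i') = wt L φ a (q m) i' := by
        unfold wt
        rw [W_block L φ hm hi']
        have e : 2 ^ m = 2 ^ L * 2 ^ (m - L) := by rw [← pow_add]; congr 1; omega
        have : (2 ^ m + i') % 2 ^ L = i' % 2 ^ L := by
          rw [e, Nat.mul_add_mod]
        rw [this]
      rw [h1, h2, Nat.add_sub_cancel_left, Nat.add_sub_cancel_left]
    · rw [if_neg h]; simp
  shift' m hm p := by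
    refine op_ext fun f i => ?_
    rw [mulA, mulA, TC_apply, SSt_apply, SSt_apply, TC_apply]
    simp only [lt_sgm hm hb]
    by_cases h : i < 2 ^ m
    · rw [if_pos h, one_mul, one_mul]
      have h1 : sgm L b (2 ^ m + i) = 2 ^ m + sgm L b i := by
        have e : 2 ^ m = 2 ^ L * 2 ^ (m - L) := by rw [← pow_add]; congr 1; omega
        unfold sgm
        rw [e, Nat.mul_add_div (by positivity)]
        ring
      have h2 : wt L φ a p (2 ^ m + i) = wt L φ a (q m) i := by
        unfold wt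
        rw [W_block L φ hm h]
        have e : 2 ^ m = 2 ^ L * 2 ^ (m - L) := by rw [← pow_add]; congr 1; omega
        have : (2 ^ m + i) % 2 ^ L = i % 2 ^ L := by
          rw [e, Nat.mul_add_mod]
        rw [this]
      rw [h1, h2]
    · rw [if_neg h]; simp
  eqv k p := by
    refine op_ext fun f i => ?_
    rw [mulA, mulA, TC_apply, gg_apply, gg_apply, TC_apply]
    have key : wt L φ a (flip k p) i * sk k (sgm L b i) = sk k i * wt L φ a p i := by
      unfold wt
      by_cases h : i % 2 ^ L = a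
      · rw [if_pos h, if_pos h]
        by_cases h0 : i / 2 ^ L = 0
        · have hi : i = a := by
            rw [← Nat.div_add_mod i (2 ^ L), h0, h]; simp
          have hs : sgm L b i = b := by unfold sgm; rw [h0]; simp
          rw [h0, W_zero, W_zero, hs, hφ, hi]
          have : sk k b * sk k b = 1 := by unfold sk; split_ifs <;> simp
          linear_combination (sk k a * φ p) * this
        · rw [W_const L φ h0 (flip k p) p, mul_comm]
          congr 1
          unfold sk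
          have : blk k (sgm L b i) ↔ blk k i := by
            by_cases hk : L ≤ k
            · exact blk_sgm hk hb i
            · have h1 := not_blk (not_le.mp hk) h0
              have h2 : ¬ blk k (sgm L b i) := not_blk (not_le.mp hk) (by rw [sgm_div hb]; exact h0)
              exact ⟨fun h => absurd h h2, fun h => absurd h h1⟩
          simp only [this]
      · rw [if_neg h, if_neg h]; simp
    rw [← mul_assoc, key, mul_assoc]

/-- the entries in the first block -/
lemma TC_ee {L : ℕ} (φ : C(PT, ℂ)) {a b : ℕ} (p : PT) {j : ℕ}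
    {i : ℕ} (hi : i < 2 ^ L) :
    TC L φ a b p (ee j) i = if i = a ∧ j = b then φ p else 0 := by
  rw [TC_apply, ee_apply]
  unfold wt sgm
  rw [Nat.mod_eq_of_lt hi, Nat.div_eq_of_lt hi, W_zero]
  rw [mul_zero, zero_add]
  by_cases h1 : i = a
  · by_cases h2 : b = j
    · rw [if_pos h1, if_pos h2, if_pos ⟨h1, h2.symm⟩, mul_one]
    · rw [if_pos h1, if_neg h2, if_neg (fun h : i = a ∧ j = b => h2 h.2.symm), mul_zero]
  · rw [if_neg h1, if_neg (fun h : i = a ∧ j = b => h1 h.1), zero_mul]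

/-- the value on a basis vector of the first block -/
lemma TC_ee_vec {L : ℕ} {a b : ℕ} (ha : a < 2 ^ L) (p : PT) {j : ℕ} (hj : j < 2 ^ L) (hb : b < 2 ^ L) :
    TC L 1 a b p (ee j) = if j = b then ee a else 0 := by
  refine lp.ext (funext fun i => ?_)
  rw [TC_apply, ee_apply]
  unfold wt
  have e : (⇑(1 : C(PT, ℂ)) : PT → ℂ) = fun _ => 1 := rfl
  rw [e, W_one]
  by_cases h2 : j = b
  · rw [if_pos h2, ee_apply]
    by_cases h3 : i = a
    · subst h3
      have : sgm L b i = j := by unfold sgm; rw [Nat.div_eq_of_lt ha, h2]; simp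
      rw [if_pos (Nat.mod_eq_of_lt ha), if_pos this, if_pos rfl, mul_one]
    · rw [if_neg h3]
      by_cases h4 : i % 2 ^ L = a
      · have : ¬ sgm L b i = j := by
          intro h
          have h5 : i / 2 ^ L = 0 := by
            rw [← sgm_div hb i, h]; exact Nat.div_eq_of_lt hj
          apply h3
          rw [← Nat.div_add_mod i (2 ^ L), h5, h4]; simp
        rw [if_neg this, mul_zero]
      · rw [if_neg h4, zero_mul]
  · rw [if_neg h2]
    have : ¬ sgm L b i = j := by
      intro h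
      have h5 : i / 2 ^ L = 0 := by
        rw [← sgm_div hb i, h]; exact Nat.div_eq_of_lt hj
      apply h2
      rw [← h]; unfold sgm; rw [h5]; simp
    rw [if_neg this, mul_zero]
    rfl

lemma norm_TC_one_le {L : ℕ} {a b : ℕ} : ‖TC L 1 a b‖ ≤ 1 := by
  rw [ContinuousMap.norm_le _ zero_le_one]
  intro p
  refine norm_wp_le (TT_good (bdd 1) a b p) ?_
  intro i
  unfold wt
  have e : (⇑(1 : C(PT, ℂ)) : PT → ℂ) = fun _ => 1 := rfl
  rw [e, W_one]
  exact norm_ite_le _

end

end Pool.Agent.Y269.GP
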